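import Pool.Agent.Q18.KZ.S2
import Pool.Agent.W76.MO.Asm2

set_option autoImplicit false

/-!
Project KZ (helper18): basic facts on cells and counting.
-/

namespace Pool.Agent.Q222.KZ

open Finset
open scoped Classical
open Pool.Agent.Q18.KZ
open Pool.Agent.W76.MO (hh nc cell lp Rough hh_pos cell_loc nc_mul)

theorem r2 (x y : ℝ) : (2 : ℝ) ^ (x + y) = (2 : ℝ) ^ x * (2 : ℝ) ^ y := Real.rpow_add two_pos x y

theorem r2n (n : ℕ) : ((2 ^ n : ℕ) : ℝ) = (2 : ℝ) ^ (n : ℝ) := by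
  rw [Nat.cast_pow, Nat.cast_ofNat, Real.rpow_natCast]

theorem r2n' (n : ℕ) : (2 : ℝ) ^ n = (2 : ℝ) ^ (n : ℝ) := (Real.rpow_natCast 2 n).symm

theorem r2pos (x : ℝ) : 0 < (2 : ℝ) ^ x := Real.rpow_pos_of_pos two_pos x

theorem r2mono {x y : ℝ} (h : x ≤ y) : (2 : ℝ) ^ x ≤ (2 : ℝ) ^ y :=
  Real.rpow_le_rpow_of_exponent_le one_le_two h

theorem hh_le {δ : ℝ} (_ : 0 < δ) (hδ' : δ ≤ 1 / 2) (i : ℕ) : (hh δ i : ℝ) ≤ (2 : ℝ) ^ ((1 / 2 - δ) * (i : ℝ)) := by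
  unfold hh
  rw [r2n]
  exact r2mono (Nat.floor_le (mul_nonneg (by linarith) (Nat.cast_nonneg i)))

theorem hh_le_half {δ : ℝ} (hδ : 0 < δ) (hδ' : δ ≤ 1 / 2) (i : ℕ) : (hh δ i : ℝ) ≤ (2 : ℝ) ^ ((i : ℝ) / 2) := by
  refine (hh_le hδ hδ' i).trans (r2mono ?_)
  have : (0 : ℝ) ≤ i := Nat.cast_nonneg i
  nlinarith

theorem hh_ge {δ : ℝ} (i : ℕ) : (2 : ℝ) ^ ((1 / 2 - δ) * (i : ℝ) - 1) ≤ (hh δ i : ℝ) := by
  unfold hh
  rw [r2n]
  have := Nat.lt_floor_add_one ((1 / 2 - δ) * (i : ℝ))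
  exact r2mono (by linarith)

theorem E_half (E : KEnv) : E.δ ≤ 1 / 2 := E.hδ'.trans (by norm_num)

theorem E_small (E : KEnv) : E.δ ≤ 1 / 10 ^ 24 := E.hδ'

/-- a cell as an interval -/
theorem mem_cell {δ : ℝ} {i k n : ℕ} : n ∈ cell δ i k ↔ 2 ^ i + k * hh δ i < n ∧ n ≤ 2 ^ i + k * hh δ i + hh δ i := by
  unfold cell
  rw [mem_Ioc, add_mul, one_mul, ← add_assoc]

/-- membership in the union of the cells of the first kind -/
theorem mem_Act1 (E : KEnv) {i n : ℕ} : n ∈ E.Act1 i ↔ ∃ k ∈ E.B1 i ∪ (E.B1 i).image (E.pi i), n ∈ cell E.δ i k := by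
  unfold KEnv.Act1 ActD
  rw [mem_biUnion]

theorem mem_Act2 (E : KEnv) {i n : ℕ} : n ∈ E.Act2 i ↔ ∃ k ∈ E.B2 i, n ∈ cell E.δ i k := by
  unfold KEnv.Act2 ActD
  rw [mem_biUnion]

theorem act1_lt (E : KEnv) {i k : ℕ} (hi : E.i₁ ≤ i) (hk : k ∈ E.B1 i ∪ (E.B1 i).image (E.pi i)) : k < nc E.δ i := by
  rw [mem_union, mem_image] at hk
  rcases hk with hk | ⟨k', hk', rfl⟩
  · exact E.sub i k (mem_union_left _ hk)
  · exact (E.pi_good i hi k' hk').1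

theorem act2_lt (E : KEnv) {i k : ℕ} (hk : k ∈ E.B2 i) : k < nc E.δ i :=
  E.sub i k (mem_union_right _ hk)

theorem act1_loc (E : KEnv) {i n : ℕ} (hi : E.i₁ ≤ i) (hn : n ∈ E.Act1 i) : 2 ^ i < n ∧ n ≤ 2 ^ (i + 1) := by
  obtain ⟨k, hk, hn⟩ := (mem_Act1 E).1 hn
  have := cell_loc E.δ E.hδ i k n (act1_lt E hi hk) hn
  exact ⟨this.1, this.2.1⟩

theorem act2_loc (E : KEnv) {i n : ℕ} (hn : n ∈ E.Act2 i) : 2 ^ i < n ∧ n ≤ 2 ^ (i + 1) := by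
  obtain ⟨k, hk, hn⟩ := (mem_Act2 E).1 hn
  have := cell_loc E.δ E.hδ i k n (act2_lt E hk) hn
  exact ⟨this.1, this.2.1⟩

theorem card_act1 (E : KEnv) {i : ℕ} (hi : E.i₁ ≤ i) :
    ((E.B1 i ∪ (E.B1 i).image (E.pi i)).card : ℝ) ≤ (2 : ℝ) ^ (0.306 * (i : ℝ) + 1) := by
  have h1 : (E.B1 i ∪ (E.B1 i).image (E.pi i)).card ≤ (E.B1 i).card + (E.B1 i).card :=
    (card_union_le _ _).trans (Nat.add_le_add_left card_image_le _)
  have h2 := E.card1 i hi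
  have h3 : ((E.B1 i ∪ (E.B1 i).image (E.pi i)).card : ℝ) ≤ ((E.B1 i).card : ℝ) + (E.B1 i).card := by exact_mod_cast h1
  rw [r2, Real.rpow_one]
  linarith

theorem card_act2 (E : KEnv) {i : ℕ} (hi : E.i₁ ≤ i) : ((E.B2 i).card : ℝ) ≤ (2 : ℝ) ^ (0.1165 * (i : ℝ)) := E.card2 i hi

/-- the number of multipliers that map into an interval -/
theorem card_mul_Ioc {w A B : ℕ} (hw : 0 < w) (hAB : A ≤ B) (T : Finset ℕ) (h : ∀ s ∈ T, A < w * s ∧ w * s ≤ B) :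
    (T.card : ℝ) ≤ 1 + ((B : ℝ) - A) / w := by
  have h1 : T ⊆ Ioc (A / w) (B / w) := by
    intro s hs
    obtain ⟨h1, h2⟩ := h s hs
    rw [mem_Ioc]
    constructor
    · rw [Nat.div_lt_iff_lt_mul hw, mul_comm]; exact h1
    · rw [Nat.le_div_iff_mul_le hw, mul_comm]; exact h2
  have h2 := card_le_card h1
  rw [Nat.card_Ioc] at h2
  have h3 : A / w ≤ B / w := Nat.div_le_div_right hAB
  have h4 : (T.card : ℝ) ≤ ((B / w : ℕ) : ℝ) - ((A / w : ℕ) : ℝ) := by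
    rw [← Nat.cast_sub h3]; exact_mod_cast h2
  have h5 : ((B / w : ℕ) : ℝ) ≤ (B : ℝ) / w := Nat.cast_div_le
  have hw' : (0 : ℝ) < w := by exact_mod_cast hw
  have h6 : (A : ℝ) / w - 1 ≤ ((A / w : ℕ) : ℝ) := by
    have h7 : A < w * (A / w + 1) := Nat.lt_mul_div_succ A hw
    have h8 : (A : ℝ) < w * (((A / w : ℕ) : ℝ) + 1) := by exact_mod_cast h7
    have h9 : (A : ℝ) / w < ((A / w : ℕ) : ℝ) + 1 := by rw [div_lt_iff₀ hw']; linarith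
    linarith
  rw [sub_div]
  linarith

/-- the number of multiples of `s` in an interval -/
theorem card_dvd_Ioc {s a b : ℕ} (hs : 0 < s) (hab : a ≤ b) :
    (((Ioc a b).filter (fun n => s ∣ n)).card : ℝ) ≤ 1 + ((b : ℝ) - a) / s := by
  have h1 : ((Ioc a b).filter (fun n => s ∣ n)).card = (((Ioc a b).filter (fun n => s ∣ n)).image (fun n => n / s)).card := by
    symm
    apply card_image_of_injOn
    intro x hx y hy hxy
    rw [mem_coe, mem_filter] at hx hy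
    have h2 : x / s = y / s := hxy
    rw [← Nat.div_mul_cancel hx.2, ← Nat.div_mul_cancel hy.2, h2]
  rw [h1]
  apply card_mul_Ioc hs hab
  intro t ht
  obtain ⟨n, hn, rfl⟩ := mem_image.1 ht
  rw [mem_filter, mem_Ioc] at hn
  rw [Nat.mul_div_cancel' hn.2]
  exact hn.1

/-- multipliers into a cell -/
theorem card_cell {δ : ℝ} {i k w : ℕ} (hw : 0 < w) (T : Finset ℕ) (h : ∀ s ∈ T, w * s ∈ cell δ i k) :
    (T.card : ℝ) ≤ 1 + (hh δ i : ℝ) / w := by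
  have h1 := card_mul_Ioc (A := 2 ^ i + k * hh δ i) (B := 2 ^ i + k * hh δ i + hh δ i) hw (Nat.le_add_right _ _) T
    (fun s hs => mem_cell.1 (h s hs))
  have h2 : (((2 ^ i + k * hh δ i + hh δ i : ℕ) : ℝ) - ((2 ^ i + k * hh δ i : ℕ) : ℝ)) = hh δ i := by
    push_cast; ring
  rwa [h2] at h1

/-- multipliers into a union of cells -/
theorem card_cells {δ : ℝ} {i w : ℕ} (hw : 0 < w) (K : Finset ℕ) (T : Finset ℕ) (h : ∀ s ∈ T, ∃ k ∈ K, w * s ∈ cell δ i k) :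
    (T.card : ℝ) ≤ K.card * (1 + (hh δ i : ℝ) / w) := by
  have h1 : T ⊆ K.biUnion (fun k => T.filter (fun s => w * s ∈ cell δ i k)) := by
    intro s hs
    obtain ⟨k, hk, hs'⟩ := h s hs
    exact mem_biUnion.2 ⟨k, hk, mem_filter.2 ⟨hs, hs'⟩⟩
  have h2 : T.card ≤ ∑ k ∈ K, (T.filter (fun s => w * s ∈ cell δ i k)).card := (card_le_card h1).trans card_biUnion_le
  calc (T.card : ℝ) ≤ ∑ k ∈ K, ((T.filter (fun s => w * s ∈ cell δ i k)).card : ℝ) := by exact_mod_cast h2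
    _ ≤ ∑ _k ∈ K, (1 + (hh δ i : ℝ) / w) := sum_le_sum fun k _ => card_cell hw _ (fun s hs => (mem_filter.1 hs).2)
    _ = _ := by rw [sum_const, nsmul_eq_mul]

theorem sum_union_le' {ι : Type} [DecidableEq ι] (A B : Finset ι) (f : ι → ℝ) (hf : ∀ a, 0 ≤ f a) :
    ∑ a ∈ A ∪ B, f a ≤ ∑ a ∈ A, f a + ∑ a ∈ B, f a := by
  rw [← Finset.sum_union_inter]
  have : 0 ≤ ∑ a ∈ A ∩ B, f a := Finset.sum_nonneg fun a _ => hf a
  linarith

theorem sum_biUnion_le' {ι κ : Type} [DecidableEq ι] (K : Finset κ) (t : κ → Finset ι) (f : ι → ℝ) (hf : ∀ a, 0 ≤ f a) :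
    ∑ a ∈ K.biUnion t, f a ≤ ∑ k ∈ K, ∑ a ∈ t k, f a := by
  induction K using Finset.induction_on with
  | empty => simp
  | insert k K hk ih =>
    rw [biUnion_insert, sum_insert hk]
    exact (sum_union_le' _ _ f hf).trans (add_le_add le_rfl ih)

end Pool.Agent.Q222.KZ
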