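import Pool.Agent.Q222.KZ.Base

set_option autoImplicit false

/-!
Project KZ (helper18), job F1: few multipliers for a given host prime.
-/

namespace Pool.Agent.Q222.KZ

open Finset
open scoped Classical
open Pool.Agent.Q18.KZ
open Pool.Agent.W76.MO (hh nc cell lp Rough hh_pos cell_loc nc_mul)

theorem rpow_r2 (x y : ℝ) : ((2 : ℝ) ^ x) ^ y = (2 : ℝ) ^ (x * y) := (Real.rpow_mul two_pos.le x y).symm

theorem d1_pos : 0 < d1 := by unfold d1; norm_num
theorem d1_le : d1 ≤ 1 / 10 ^ 4 := by unfold d1; norm_num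

theorem t_F1 : S_FF → S_F1 := by
  intro hFF E
  refine ⟨max E.i₁ 5000, fun i hi q l => ?_⟩
  have hi1 : E.i₁ ≤ i := (le_max_left _ _).trans hi
  have hi2 : (5000 : ℝ) ≤ i := by exact_mod_cast (le_max_right _ _).trans hi
  obtain ⟨hF1, hF2⟩ := hFF E i hi1
  have hd0 := d1_pos
  have hd1 := d1_le
  have hneg : -(1 / 2 : ℝ) + d1 ≤ 0 := by linarith
  set f : ℕ × ℕ → ℝ := fun u => (((u.1 / l : ℕ) : ℝ)) ^ (-(1 / 2 : ℝ) + d1) with hf
  have hf0 : ∀ u, 0 ≤ f u := fun u => Real.rpow_nonneg (Nat.cast_nonneg _) _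
  unfold KEnv.Fam
  rw [Finset.filter_union]
  refine (sum_union_le' _ _ f hf0).trans ?_
  -- first family
  have A1 : ∑ u ∈ (E.Fam1 i).filter (fun u => u.2 = q ∧ l ∣ u.1 ∧ l ≠ u.1), f u ≤ (2 : ℝ) ^ (-((i : ℝ) / 4000)) / 2 := by
    set T := (E.Fam1 i).filter (fun u => u.2 = q ∧ l ∣ u.1 ∧ l ≠ u.1) with hT
    rcases T.eq_empty_or_nonempty with he | ⟨u0, hu0⟩
    · rw [he, Finset.sum_empty]; positivity
    · have hL : E.Lt i q := by
        rw [hT, mem_filter] at hu0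
        have h1 := hu0.1
        unfold KEnv.Fam1 at h1
        rw [mem_filter] at h1
        rw [← hu0.2.1]
        exact h1.2.2.1
      have hcard : (T.card : ℝ) ≤ (2 : ℝ) ^ ((5 / 26 - 1 / 2000) * (i : ℝ)) := by
        refine le_trans ?_ (E.light i hi1 q hL)
        have h2 : T.card ≤ ((VR i).filter (fun v => v * q ∈ ActD E.δ i (E.B1 i ∪ (E.B1 i).image (E.pi i)))).card := by
          apply Finset.card_le_card_of_injOn (fun u => u.1)
          · intro u hu
            rw [mem_coe, hT, mem_filter] at hu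
            obtain ⟨hv1, hv2, hv3, hv4, hv5, hv6, hv7, hv8⟩ := hF1 u hu.1
            rw [mem_coe, mem_filter]
            refine ⟨hv3, ?_⟩
            rw [← hu.2.1]
            exact hv8
          · intro u hu u' hu' huu
            rw [mem_coe, hT, mem_filter] at hu hu'
            exact Prod.ext huu (hu.2.1.trans hu'.2.1.symm)
        exact_mod_cast h2
      have hterm : ∀ u ∈ T, f u ≤ (2 : ℝ) ^ (5 / 13 * (i : ℝ) * (-(1 / 2 : ℝ) + d1)) := by
        intro u hu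
        rw [hT, mem_filter] at hu
        obtain ⟨hv1, hv2, hv3, hv4, hv5, hv6, hv7, hv8⟩ := hF1 u hu.1
        have hl1 : l = 1 := by
          rcases (Nat.dvd_prime hv1).1 hu.2.2.1 with h | h
          · exact h
          · exact absurd h hu.2.2.2
        rw [hf]
        simp only
        rw [hl1, Nat.div_one, ← rpow_r2]
        unfold VR at hv3
        rw [mem_filter] at hv3
        exact Real.rpow_le_rpow_of_nonpos (r2pos _) hv3.2.2.1.le hneg
      calc ∑ u ∈ T, f u ≤ T.card • (2 : ℝ) ^ (5 / 13 * (i : ℝ) * (-(1 / 2 : ℝ) + d1)) := Finset.sum_le_card_nsmul _ _ _ hterm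
        _ = (T.card : ℝ) * (2 : ℝ) ^ (5 / 13 * (i : ℝ) * (-(1 / 2 : ℝ) + d1)) := by rw [nsmul_eq_mul]
        _ ≤ (2 : ℝ) ^ ((5 / 26 - 1 / 2000) * (i : ℝ)) * (2 : ℝ) ^ (5 / 13 * (i : ℝ) * (-(1 / 2 : ℝ) + d1)) :=
          mul_le_mul_of_nonneg_right hcard (r2pos _).le
        _ = (2 : ℝ) ^ ((5 / 26 - 1 / 2000) * (i : ℝ) + 5 / 13 * (i : ℝ) * (-(1 / 2 : ℝ) + d1)) := (r2 _ _).symm
        _ ≤ (2 : ℝ) ^ (-((i : ℝ) / 4000) - 1) := r2mono (by nlinarith)
        _ = _ := by rw [Real.rpow_sub two_pos, Real.rpow_one]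
  -- second family
  have A2 : ∑ u ∈ (E.Fam2 i).filter (fun u => u.2 = q ∧ l ∣ u.1 ∧ l ≠ u.1), f u ≤ (2 : ℝ) ^ (-((i : ℝ) / 4000)) / 2 := by
    set T := (E.Fam2 i).filter (fun u => u.2 = q ∧ l ∣ u.1 ∧ l ≠ u.1) with hT
    set Bd : ℝ := (2 : ℝ) ^ (0.24 * (i : ℝ) * (-(1 / 2 : ℝ) + d1)) + (2 : ℝ) ^ (-((i : ℝ) / 2) + 0.75 * ((i : ℝ) + 1) * (1 / 2 + d1)) with hBd
    have hBd0 : 0 ≤ Bd := by positivity
    have h1 : T ⊆ (E.B2 i).biUnion (fun k => T.filter (fun u => u.1 * u.2 ∈ cell E.δ i k)) := by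
      intro u hu
      have hu' := hu
      rw [hT, mem_filter] at hu'
      obtain ⟨-, -, -, -, -, -, -, -, -, -, hact⟩ := hF2 u hu'.1
      obtain ⟨k, hk, hc⟩ := (mem_Act2 E).1 hact
      exact mem_biUnion.2 ⟨k, hk, mem_filter.2 ⟨hu, hc⟩⟩
    have h2 : ∀ k ∈ E.B2 i, ∑ u ∈ T.filter (fun u => u.1 * u.2 ∈ cell E.δ i k), f u ≤ Bd := by
      intro k hk
      set Tk := T.filter (fun u => u.1 * u.2 ∈ cell E.δ i k) with hTk
      rcases Tk.eq_empty_or_nonempty with he | hne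
      · rw [he, Finset.sum_empty]; exact hBd0
      · obtain ⟨u0, hu0, hmax⟩ := Finset.exists_max_image Tk f hne
        have hprop : ∀ u ∈ Tk, u ∈ E.Fam2 i ∧ u.2 = q ∧ l ∣ u.1 ∧ l ≠ u.1 ∧ u.1 * u.2 ∈ cell E.δ i k := by
          intro u hu
          rw [hTk, mem_filter, hT, mem_filter] at hu
          exact ⟨hu.1.1, hu.1.2.1, hu.1.2.2.1, hu.1.2.2.2, hu.2⟩
        obtain ⟨hm0, hq0, hl0, hl0', hc0⟩ := hprop u0 hu0
        obtain ⟨g1, g2, g3, g4, g5, g6, g7, g8, g9, g10, g11⟩ := hF2 u0 hm0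
        have hu1pos : 0 < u0.1 := by omega
        have hlpos : 0 < l := Nat.pos_of_dvd_of_pos hl0 hu1pos
        have hqpos : 0 < q := by rw [← hq0]; exact g3.pos
        have hcard : (Tk.card : ℝ) ≤ 1 + (hh E.δ i : ℝ) / ((l * q : ℕ) : ℝ) := by
          have h3 : Tk.card = (Tk.image (fun u => u.1 / l)).card := by
            symm
            apply card_image_of_injOn
            intro u hu u' hu' huu
            rw [mem_coe] at hu hu'
            obtain ⟨-, k1, k2, -, -⟩ := hprop u hu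
            obtain ⟨-, k1', k2', -, -⟩ := hprop u' hu'
            have h4 : u.1 / l = u'.1 / l := huu
            refine Prod.ext ?_ (k1.trans k1'.symm)
            rw [← Nat.div_mul_cancel k2, ← Nat.div_mul_cancel k2', h4]
          rw [h3]
          apply card_cell (Nat.mul_pos hlpos hqpos)
          intro s hs
          obtain ⟨u, hu, rfl⟩ := mem_image.1 hs
          obtain ⟨-, k1, k2, -, k3⟩ := hprop u hu
          have h5 : l * q * (u.1 / l) = u.1 * u.2 := by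
            rw [k1, mul_comm l q, mul_assoc, Nat.mul_div_cancel' k2, mul_comm]
          rw [h5]; exact k3
        set r0 : ℕ := u0.1 / l with hr0
        have hr0l : l * r0 = u0.1 := Nat.mul_div_cancel' hl0
        have hr0pos : 0 < r0 := Nat.pos_of_ne_zero (by rintro h; rw [h, mul_zero] at hr0l; omega)
        have hr1 : r0 ≠ 1 := by
          intro h
          rw [h, mul_one] at hr0l
          exact hl0' hr0l
        have hr0R : (0 : ℝ) < r0 := by exact_mod_cast hr0pos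
        have hlo : (2 : ℝ) ^ (0.24 * (i : ℝ)) ≤ r0 := by
          obtain ⟨p, hp, hpd⟩ := Nat.exists_prime_and_dvd hr1
          have h6 := g5 p hp (hpd.trans ⟨l, by rw [mul_comm]; exact hr0l.symm⟩)
          have h7 : (p : ℝ) ≤ r0 := by exact_mod_cast Nat.le_of_dvd hr0pos hpd
          exact h6.trans h7
        have hup : (r0 : ℝ) ≤ (2 : ℝ) ^ (0.75 * ((i : ℝ) + 1)) := by
          refine le_trans ?_ g7
          exact_mod_cast Nat.div_le_self _ _
        have hlq : (hh E.δ i : ℝ) / ((l * q : ℕ) : ℝ) ≤ (2 : ℝ) ^ (-((i : ℝ) / 2)) * r0 := by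
          have hlqpos : (0 : ℝ) < ((l * q : ℕ) : ℝ) := by exact_mod_cast Nat.mul_pos hlpos hqpos
          rw [div_le_iff₀ hlqpos]
          have h8 : (2 : ℝ) ^ (i : ℝ) ≤ ((l * q : ℕ) : ℝ) * r0 := by
            rw [← r2n]
            have h9 : l * q * r0 = u0.1 * u0.2 := by rw [← hr0l, hq0]; ring
            have h10 : 2 ^ i ≤ l * q * r0 := by rw [h9]; exact g9.le
            exact_mod_cast h10
          calc (hh E.δ i : ℝ) ≤ (2 : ℝ) ^ ((i : ℝ) / 2) := hh_le_half E.hδ (E_half E) i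
            _ = (2 : ℝ) ^ (-((i : ℝ) / 2)) * (2 : ℝ) ^ (i : ℝ) := by rw [← r2]; congr 1; ring
            _ ≤ (2 : ℝ) ^ (-((i : ℝ) / 2)) * (((l * q : ℕ) : ℝ) * r0) := mul_le_mul_of_nonneg_left h8 (r2pos _).le
            _ = _ := by ring
        have hf1 : f u0 = (r0 : ℝ) ^ (-(1 / 2 : ℝ) + d1) := rfl
        calc ∑ u ∈ Tk, f u ≤ Tk.card • f u0 := Finset.sum_le_card_nsmul _ _ _ hmax
          _ = (Tk.card : ℝ) * f u0 := by rw [nsmul_eq_mul]
          _ ≤ (1 + (2 : ℝ) ^ (-((i : ℝ) / 2)) * r0) * f u0 := mul_le_mul_of_nonneg_right (by linarith) (hf0 _)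
          _ = (r0 : ℝ) ^ (-(1 / 2 : ℝ) + d1) + (2 : ℝ) ^ (-((i : ℝ) / 2)) * (r0 : ℝ) ^ (1 / 2 + d1) := by
            rw [hf1, add_mul, one_mul, mul_assoc]
            congr 2
            have : (r0 : ℝ) ^ (1 / 2 + d1) = (r0 : ℝ) ^ (-(1 / 2 : ℝ) + d1 + 1) := by congr 1; ring
            rw [this, Real.rpow_add_one hr0R.ne', mul_comm]
          _ ≤ Bd := by
            rw [hBd]
            apply add_le_add
            · rw [← rpow_r2]
              exact Real.rpow_le_rpow_of_nonpos (r2pos _) hlo hneg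
            · rw [r2, ← rpow_r2 (0.75 * ((i : ℝ) + 1))]
              exact mul_le_mul_of_nonneg_left (Real.rpow_le_rpow hr0R.le hup (by linarith)) (r2pos _).le
    calc ∑ u ∈ T, f u ≤ ∑ u ∈ (E.B2 i).biUnion (fun k => T.filter (fun u => u.1 * u.2 ∈ cell E.δ i k)), f u :=
          Finset.sum_le_sum_of_subset_of_nonneg h1 (fun u _ _ => hf0 u)
      _ ≤ ∑ k ∈ E.B2 i, ∑ u ∈ T.filter (fun u => u.1 * u.2 ∈ cell E.δ i k), f u := by
          exact sum_biUnion_le' _ _ _ (fun u => hf0 u)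
      _ ≤ ∑ _k ∈ E.B2 i, Bd := Finset.sum_le_sum h2
      _ = ((E.B2 i).card : ℝ) * Bd := by rw [Finset.sum_const, nsmul_eq_mul]
      _ ≤ (2 : ℝ) ^ (0.1165 * (i : ℝ)) * Bd := mul_le_mul_of_nonneg_right (card_act2 E hi1) hBd0
      _ = (2 : ℝ) ^ (0.1165 * (i : ℝ) + 0.24 * (i : ℝ) * (-(1 / 2 : ℝ) + d1)) +
          (2 : ℝ) ^ (0.1165 * (i : ℝ) + (-((i : ℝ) / 2) + 0.75 * ((i : ℝ) + 1) * (1 / 2 + d1))) := by
          rw [hBd, mul_add, ← r2, ← r2]
      _ ≤ (2 : ℝ) ^ (-((i : ℝ) / 4000) - 2) + (2 : ℝ) ^ (-((i : ℝ) / 4000) - 2) := by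
          apply add_le_add
          · exact r2mono (by nlinarith)
          · exact r2mono (by nlinarith)
      _ = (2 : ℝ) ^ (-((i : ℝ) / 4000)) / 2 := by
          rw [Real.rpow_sub two_pos]
          norm_num
          ring
  linarith

end Pool.Agent.Q222.KZ
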