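import Pool.Agent.Q222.KZ.Base

set_option autoImplicit false

/-!
Project KZ (helper18), job F2: fixed multiplier.
-/

namespace Pool.Agent.Q222.KZ

open Finset
open scoped Classical
open Pool.Agent.Q18.KZ
open Pool.Agent.W76.MO (hh nc cell lp Rough hh_pos cell_loc nc_mul)

/-- the number of pairs `(n, s)`, `s ∣ n`, with `s` in a given set of numbers `≥ σ` -/
theorem pairs_le {a b N : ℕ} (hab : a ≤ b) (p : ℕ → Prop) [DecidablePred p] {σ : ℝ} (hσ : 0 < σ) (hs : ∀ s, p s → 0 < s ∧ σ ≤ (s : ℝ)) :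
    ((((Ioc a b) ×ˢ (range N)).filter (fun u => u.2 ∣ u.1 ∧ p u.2)).card : ℝ) ≤
      (((range N).filter p).card : ℝ) * (1 + ((b : ℝ) - a) / σ) := by
  have hab' : (0 : ℝ) ≤ (b : ℝ) - a := by
    have : (a : ℝ) ≤ b := by exact_mod_cast hab
    linarith
  have h1 : (((Ioc a b) ×ˢ (range N)).filter (fun u => u.2 ∣ u.1 ∧ p u.2)) ⊆
      ((range N).filter p).biUnion (fun s => ((Ioc a b).filter (fun n => s ∣ n)).image (fun n => (n, s))) := by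
    intro u hu
    rw [mem_filter, mem_product] at hu
    rw [mem_biUnion]
    exact ⟨u.2, mem_filter.2 ⟨hu.1.2, hu.2.2⟩, mem_image.2 ⟨u.1, mem_filter.2 ⟨hu.1.1, hu.2.1⟩, rfl⟩⟩
  have h2 := (card_le_card h1).trans card_biUnion_le
  calc ((((Ioc a b) ×ˢ (range N)).filter (fun u => u.2 ∣ u.1 ∧ p u.2)).card : ℝ)
      ≤ ∑ s ∈ (range N).filter p, ((((Ioc a b).filter (fun n => s ∣ n)).image (fun n => (n, s))).card : ℝ) := by exact_mod_cast h2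
    _ ≤ ∑ _s ∈ (range N).filter p, (1 + ((b : ℝ) - a) / σ) := by
        apply Finset.sum_le_sum
        intro s hs'
        obtain ⟨h3, h4⟩ := hs s (mem_filter.1 hs').2
        have h5 : (((((Ioc a b).filter (fun n => s ∣ n)).image (fun n => (n, s))).card : ℕ) : ℝ) ≤
            (((Ioc a b).filter (fun n => s ∣ n)).card : ℝ) := by exact_mod_cast card_image_le
        have h6 := card_dvd_Ioc h3 hab
        have h7 : ((b : ℝ) - a) / s ≤ ((b : ℝ) - a) / σ := div_le_div_of_nonneg_left hab' hσ h4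
        linarith
    _ = _ := by rw [sum_const, nsmul_eq_mul]

/-- general form of the count -/
theorem pairs_cells {δ : ℝ} {i w a b N : ℕ} (hδ : 0 < δ) (hδ' : δ ≤ 1 / 2) (hw : 0 < w) (hab : a ≤ b) (K : Finset ℕ)
    (hK : ∀ k ∈ K, k < nc δ i) {X Y : ℝ} (hX : (b : ℝ) - a ≤ X) (hY : (K.card : ℝ) ≤ Y)
    (p : ℕ → Prop) [DecidablePred p] (hp : ∀ s, p s → ∃ k ∈ K, w * s ∈ cell δ i k) :
    ((((Ioc a b) ×ˢ (range N)).filter (fun u => u.2 ∣ u.1 ∧ p u.2)).card : ℝ) ≤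
      Y * (1 + (2 : ℝ) ^ ((i : ℝ) / 2) / w) * (1 + X * w / (2 : ℝ) ^ (i : ℝ)) := by
  have hw' : (0 : ℝ) < w := by exact_mod_cast hw
  have hab' : (0 : ℝ) ≤ (b : ℝ) - a := by
    have : (a : ℝ) ≤ b := by exact_mod_cast hab
    linarith
  have hσ : (0 : ℝ) < (2 : ℝ) ^ (i : ℝ) / w := div_pos (r2pos _) hw'
  have h1 : ∀ s, p s → 0 < s ∧ (2 : ℝ) ^ (i : ℝ) / w ≤ (s : ℝ) := by
    intro s hs
    obtain ⟨k, hk, hc⟩ := hp s hs
    have h2 := (cell_loc δ hδ i k _ (hK k hk) hc).1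
    have h3 : 2 ^ i ≤ w * s := by omega
    constructor
    · rcases Nat.eq_zero_or_pos s with h | h
      · rw [h, mul_zero] at h2; exact absurd h2 (Nat.not_succ_le_zero _)
      · exact h
    · rw [div_le_iff₀ hw', ← r2n, mul_comm]
      exact_mod_cast h3
  refine (pairs_le hab p hσ h1).trans ?_
  have h4 : (((range N).filter p).card : ℝ) ≤ Y * (1 + (2 : ℝ) ^ ((i : ℝ) / 2) / w) := by
    refine (card_cells (δ := δ) (i := i) hw K _ (fun s hs => hp s (mem_filter.1 hs).2)).trans ?_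
    have h5 : (hh δ i : ℝ) / w ≤ (2 : ℝ) ^ ((i : ℝ) / 2) / w := div_le_div_of_nonneg_right (hh_le_half hδ hδ' i) hw'.le
    have h6 : (0 : ℝ) ≤ (hh δ i : ℝ) / w := by positivity
    calc (K.card : ℝ) * (1 + (hh δ i : ℝ) / w) ≤ Y * (1 + (hh δ i : ℝ) / w) := mul_le_mul_of_nonneg_right hY (by linarith)
      _ ≤ _ := mul_le_mul_of_nonneg_left (by linarith) ((Nat.cast_nonneg _).trans hY)
  have h7 : 1 + ((b : ℝ) - a) / ((2 : ℝ) ^ (i : ℝ) / w) ≤ 1 + X * w / (2 : ℝ) ^ (i : ℝ) := by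
    rw [div_div_eq_mul_div]
    have : ((b : ℝ) - a) * w / (2 : ℝ) ^ (i : ℝ) ≤ X * w / (2 : ℝ) ^ (i : ℝ) :=
      div_le_div_of_nonneg_right (mul_le_mul_of_nonneg_right hX hw'.le) (r2pos _).le
    linarith
  have h8 : 0 ≤ 1 + ((b : ℝ) - a) / ((2 : ℝ) ^ (i : ℝ) / w) := by positivity
  exact mul_le_mul h4 h7 h8 ((Nat.cast_nonneg _).trans h4)

/-- four exponents -/
theorem four_exp {A B C D T : ℝ} (hA : A + 2 ≤ T) (hB : B + 2 ≤ T) (hC : C + 2 ≤ T) (hD : D + 2 ≤ T) :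
    (2 : ℝ) ^ A + (2 : ℝ) ^ B + (2 : ℝ) ^ C + (2 : ℝ) ^ D ≤ (2 : ℝ) ^ T := by
  have h : ∀ x : ℝ, x + 2 ≤ T → (2 : ℝ) ^ x ≤ (2 : ℝ) ^ T / 4 := by
    intro x hx
    have h1 : (2 : ℝ) ^ x ≤ (2 : ℝ) ^ (T - 2) := r2mono (by linarith)
    have h2 : (2 : ℝ) ^ (T - 2) = (2 : ℝ) ^ T / 4 := by
      rw [Real.rpow_sub two_pos]; norm_num
    linarith
  have := h A hA
  have := h B hB
  have := h C hC
  have := h D hD
  linarith

theorem expand4 {P Q R : ℝ} : P * (1 + Q) * (1 + R) = P + P * Q + P * R + P * Q * R := by ring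

theorem t_F2 : S_FF → S_F2 := by
  intro _ E
  refine ⟨max E.i₁ 5000, fun i I a b w hi hI ha hab hb hba => ?_⟩
  have hi1 : E.i₁ ≤ i := (le_max_left _ _).trans hi
  have hi2 : (5000 : ℝ) ≤ i := by exact_mod_cast (le_max_right _ _).trans hi
  have hI2 : (5000 : ℝ) ≤ I := by exact_mod_cast (le_max_right _ _).trans hI
  constructor
  · intro hw hiI
    unfold VR at hw
    rw [mem_filter] at hw
    obtain ⟨-, hwp, hw1, hw2⟩ := hw
    have hw0 : 0 < w := hwp.pos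
    have hw' : (0 : ℝ) < w := by exact_mod_cast hw0
    refine (pairs_cells (N := 2 ^ (I + 1) + 1) E.hδ (E_half E) hw0 hab _ (fun k hk => act1_lt E hi1 hk) hba (card_act1 E hi1) (fun s => w * s ∈ E.Act1 i)
      (fun s hs => (mem_Act1 E).1 hs)).trans ?_
    have h1 : (2 : ℝ) ^ ((i : ℝ) / 2) / w ≤ (2 : ℝ) ^ ((i : ℝ) / 2 - 5 / 13 * (i : ℝ)) := by
      rw [Real.rpow_sub two_pos]
      exact div_le_div_of_nonneg_left (r2pos _).le (r2pos _) hw1.le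
    have h2 : (2 : ℝ) ^ ((I : ℝ) / 2) * w / (2 : ℝ) ^ (i : ℝ) ≤ (2 : ℝ) ^ ((I : ℝ) / 2 + 0.385 * (i : ℝ) - i) := by
      rw [Real.rpow_sub two_pos, r2]
      exact div_le_div_of_nonneg_right (mul_le_mul_of_nonneg_left hw2 (r2pos _).le) (r2pos _).le
    calc (2 : ℝ) ^ (0.306 * (i : ℝ) + 1) * (1 + (2 : ℝ) ^ ((i : ℝ) / 2) / w) * (1 + (2 : ℝ) ^ ((I : ℝ) / 2) * w / (2 : ℝ) ^ (i : ℝ))
        ≤ (2 : ℝ) ^ (0.306 * (i : ℝ) + 1) * (1 + (2 : ℝ) ^ ((i : ℝ) / 2 - 5 / 13 * (i : ℝ))) *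
          (1 + (2 : ℝ) ^ ((I : ℝ) / 2 + 0.385 * (i : ℝ) - i)) := by
          apply mul_le_mul
          · exact mul_le_mul_of_nonneg_left (by linarith) (r2pos _).le
          · linarith
          · positivity
          · positivity
      _ = _ := expand4
      _ ≤ _ := by
          rw [← r2, ← r2, ← r2]
          apply four_exp <;> linarith
  · intro hw1 hw2
    have hw' : (0 : ℝ) < w := lt_of_lt_of_le (r2pos _) hw1
    have hw0 : 0 < w := by exact_mod_cast hw'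
    by_cases hex : ∃ u ∈ ((Ioc a b) ×ˢ (range (2 ^ (I + 1) + 1))), u.2 ∣ u.1 ∧ w * u.2 ∈ E.Act2 i
    · obtain ⟨u, hu, -, hact⟩ := hex
      rw [mem_product, mem_range] at hu
      have hs : u.2 ≤ 2 ^ (I + 1) := by omega
      have hl := (act2_loc E hact).1
      -- `w ≥ 2^(i-I-1)`, `s ≥ 2^(0.24 i)`
      have hs' : (u.2 : ℝ) ≤ (2 : ℝ) ^ ((I : ℝ) + 1) := by
        calc (u.2 : ℝ) ≤ ((2 ^ (I + 1) : ℕ) : ℝ) := by exact_mod_cast hs
          _ = _ := by rw [r2n]; push_cast; rfl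
      have hl' : (2 : ℝ) ^ (i : ℝ) < (w : ℝ) * u.2 := by rw [← r2n]; exact_mod_cast hl
      have hw3 : (2 : ℝ) ^ ((i : ℝ) - I - 1) ≤ w := by
        by_contra hcon
        push Not at hcon
        have h1 : (w : ℝ) * u.2 ≤ (2 : ℝ) ^ ((i : ℝ) - I - 1) * (2 : ℝ) ^ ((I : ℝ) + 1) :=
          mul_le_mul hcon.le hs' (Nat.cast_nonneg _) (r2pos _).le
        rw [← r2] at h1
        have h2 : (i : ℝ) - I - 1 + (I + 1) = i := by ring
        rw [h2] at h1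
        linarith
      have hiI : 0.24 * (i : ℝ) ≤ I + 1 := by
        by_contra hcon
        push Not at hcon
        have h1 : (w : ℝ) * u.2 ≤ (2 : ℝ) ^ (0.76 * (i : ℝ)) * (2 : ℝ) ^ ((I : ℝ) + 1) :=
          mul_le_mul hw2 hs' (Nat.cast_nonneg _) (r2pos _).le
        rw [← r2] at h1
        have h2 : (2 : ℝ) ^ (0.76 * (i : ℝ) + ((I : ℝ) + 1)) ≤ (2 : ℝ) ^ (i : ℝ) := r2mono (by linarith)
        linarith
      refine (pairs_cells (N := 2 ^ (I + 1) + 1) E.hδ (E_half E) hw0 hab _ (fun k hk => act2_lt E hk) hba (card_act2 E hi1) (fun s => w * s ∈ E.Act2 i)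
        (fun s hs => (mem_Act2 E).1 hs)).trans ?_
      rw [expand4]
      -- the four products
      have p2 : (2 : ℝ) ^ (0.1165 * (i : ℝ)) * ((2 : ℝ) ^ ((i : ℝ) / 2) / w) ≤ (2 : ℝ) ^ ((I : ℝ) / 2 - (i : ℝ) / 500 - 2) := by
        by_cases hc : (i : ℝ) ≤ 1.3158 * I
        · have h1 : (2 : ℝ) ^ ((i : ℝ) / 2) / w ≤ (2 : ℝ) ^ ((i : ℝ) / 2 - 0.24 * (i : ℝ)) := by
            rw [Real.rpow_sub two_pos]
            exact div_le_div_of_nonneg_left (r2pos _).le (r2pos _) hw1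
          calc _ ≤ (2 : ℝ) ^ (0.1165 * (i : ℝ)) * (2 : ℝ) ^ ((i : ℝ) / 2 - 0.24 * (i : ℝ)) :=
                mul_le_mul_of_nonneg_left h1 (r2pos _).le
            _ = _ := (r2 _ _).symm
            _ ≤ _ := r2mono (by linarith)
        · push Not at hc
          have h1 : (2 : ℝ) ^ ((i : ℝ) / 2) / w ≤ (2 : ℝ) ^ ((i : ℝ) / 2 - ((i : ℝ) - I - 1)) := by
            rw [Real.rpow_sub two_pos ((i : ℝ) / 2)]
            exact div_le_div_of_nonneg_left (r2pos _).le (r2pos _) hw3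
          calc _ ≤ (2 : ℝ) ^ (0.1165 * (i : ℝ)) * (2 : ℝ) ^ ((i : ℝ) / 2 - ((i : ℝ) - I - 1)) :=
                mul_le_mul_of_nonneg_left h1 (r2pos _).le
            _ = _ := (r2 _ _).symm
            _ ≤ _ := r2mono (by linarith)
      have p3 : (2 : ℝ) ^ (0.1165 * (i : ℝ)) * ((2 : ℝ) ^ ((I : ℝ) / 2) * w / (2 : ℝ) ^ (i : ℝ)) ≤
          (2 : ℝ) ^ ((I : ℝ) / 2 - (i : ℝ) / 500 - 2) := by
        have h1 : (2 : ℝ) ^ ((I : ℝ) / 2) * w / (2 : ℝ) ^ (i : ℝ) ≤ (2 : ℝ) ^ ((I : ℝ) / 2 + 0.76 * (i : ℝ) - i) := by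
          rw [Real.rpow_sub two_pos, r2]
          exact div_le_div_of_nonneg_right (mul_le_mul_of_nonneg_left hw2 (r2pos _).le) (r2pos _).le
        calc _ ≤ (2 : ℝ) ^ (0.1165 * (i : ℝ)) * (2 : ℝ) ^ ((I : ℝ) / 2 + 0.76 * (i : ℝ) - i) :=
              mul_le_mul_of_nonneg_left h1 (r2pos _).le
          _ = _ := (r2 _ _).symm
          _ ≤ _ := r2mono (by linarith)
      have p4 : (2 : ℝ) ^ (0.1165 * (i : ℝ)) * ((2 : ℝ) ^ ((i : ℝ) / 2) / w) * ((2 : ℝ) ^ ((I : ℝ) / 2) * w / (2 : ℝ) ^ (i : ℝ)) ≤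
          (2 : ℝ) ^ ((I : ℝ) / 2 - (i : ℝ) / 500 - 2) := by
        have h1 : (2 : ℝ) ^ (0.1165 * (i : ℝ)) * ((2 : ℝ) ^ ((i : ℝ) / 2) / w) * ((2 : ℝ) ^ ((I : ℝ) / 2) * w / (2 : ℝ) ^ (i : ℝ)) =
            (2 : ℝ) ^ (0.1165 * (i : ℝ) + (i : ℝ) / 2 + (I : ℝ) / 2 - i) := by
          rw [Real.rpow_sub two_pos, r2, r2]
          have := (r2pos (i : ℝ)).ne'
          field_simp
        rw [h1]
        exact r2mono (by linarith)
      have p1 : (2 : ℝ) ^ (0.1165 * (i : ℝ)) ≤ (2 : ℝ) ^ ((I : ℝ) / 2 - (i : ℝ) / 500 - 2) := r2mono (by linarith)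
      have hT : (2 : ℝ) ^ ((I : ℝ) / 2 - (i : ℝ) / 500 - 2) = (2 : ℝ) ^ ((I : ℝ) / 2 - (i : ℝ) / 500) / 4 := by
        rw [Real.rpow_sub two_pos _ 2]; norm_num
      linarith
    · have h0 : (((Ioc a b) ×ˢ (range (2 ^ (I + 1) + 1))).filter (fun u => u.2 ∣ u.1 ∧ w * u.2 ∈ E.Act2 i)) = ∅ := by
        rw [Finset.filter_eq_empty_iff]
        intro u hu h
        exact hex ⟨u, hu, h⟩
      rw [h0, card_empty, Nat.cast_zero]
      exact (r2pos _).le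

end Pool.Agent.Q222.KZ
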