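import Pool.Agent.Q222.KZ.Base

set_option autoImplicit false

/-!
Project KZ (helper18), job FF: facts on the families.
-/

namespace Pool.Agent.Q222.KZ

open Finset
open scoped Classical
open Pool.Agent.Q18.KZ
open Pool.Agent.W76.MO (hh nc cell lp Rough hh_pos cell_loc nc_mul)

theorem le_lp {n p : ℕ} (hp : p ∈ n.primeFactors) : p ≤ lp n := by
  unfold Pool.Agent.W76.MO.lp
  exact Finset.le_sup (f := id) hp

/-- a rough squarefree number of scale `i` has at most four prime factors -/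
theorem card_pf {i n : ℕ} (hi : 1000 ≤ i) (hn : Squarefree n) (hr : Rough ((2 : ℝ) ^ (0.24 * (i : ℝ))) n) (hle : n ≤ 2 ^ (i + 1)) :
    n.primeFactors.card ≤ 4 := by
  by_contra hcon
  push Not at hcon
  have hi' : (1000 : ℝ) ≤ i := by exact_mod_cast hi
  have h1 : ((2 : ℝ) ^ (0.24 * (i : ℝ))) ^ (n.primeFactors.card) ≤ ∏ p ∈ n.primeFactors, (p : ℝ) := by
    rw [← Finset.prod_const]
    apply Finset.prod_le_prod
    · intro p _; exact (r2pos _).le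
    · intro p hp
      rw [Nat.mem_primeFactors] at hp
      exact hr p hp.1 hp.2.1
  have h2 : ∏ p ∈ n.primeFactors, (p : ℝ) = n := by
    rw [← Nat.cast_prod, Nat.prod_primeFactors_of_squarefree hn]
  have h3 : ((2 : ℝ) ^ (0.24 * (i : ℝ))) ^ 5 ≤ ((2 : ℝ) ^ (0.24 * (i : ℝ))) ^ (n.primeFactors.card) :=
    pow_le_pow_right₀ (Real.one_le_rpow one_le_two (by positivity)) hcon
  have h4 : (n : ℝ) ≤ (2 : ℝ) ^ ((i : ℝ) + 1) := by
    calc (n : ℝ) ≤ ((2 ^ (i + 1) : ℕ) : ℝ) := by exact_mod_cast hle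
      _ = _ := by rw [r2n]; push_cast; rfl
  have h5 : ((2 : ℝ) ^ (0.24 * (i : ℝ))) ^ 5 = (2 : ℝ) ^ (0.24 * (i : ℝ) * 5) := by
    rw [← Real.rpow_natCast, ← Real.rpow_mul two_pos.le]; norm_num
  have h6 : (2 : ℝ) ^ ((i : ℝ) + 1) < (2 : ℝ) ^ (0.24 * (i : ℝ) * 5) :=
    Real.rpow_lt_rpow_of_exponent_lt one_lt_two (by linarith)
  rw [h2] at h1
  rw [h5] at h3
  linarith

theorem le_lp4 {i n : ℕ} (hi : 1000 ≤ i) (hn : Squarefree n) (hr : Rough ((2 : ℝ) ^ (0.24 * (i : ℝ))) n) (hle : n ≤ 2 ^ (i + 1))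
    (hlp : 1 ≤ lp n) : n ≤ lp n ^ 4 := by
  have h1 : n = ∏ p ∈ n.primeFactors, p := (Nat.prod_primeFactors_of_squarefree hn).symm
  calc n = ∏ p ∈ n.primeFactors, p := h1
    _ ≤ ∏ _p ∈ n.primeFactors, lp n := Finset.prod_le_prod' fun p hp => le_lp hp
    _ = lp n ^ n.primeFactors.card := by rw [Finset.prod_const]
    _ ≤ lp n ^ 4 := Nat.pow_le_pow_right hlp (card_pf hi hn hr hle)

theorem t_FF : S_FF := by
  intro E i hi
  have hi0 : 1000 ≤ i := E.hi₁.trans hi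
  have hi' : (1000 : ℝ) ≤ i := by exact_mod_cast hi0
  constructor
  · intro u hu
    unfold KEnv.Fam1 at hu
    rw [mem_filter, mem_product] at hu
    obtain ⟨⟨hv, -⟩, hq, -, hact⟩ := hu
    have hv0 := hv
    unfold VR at hv
    rw [mem_filter] at hv
    obtain ⟨-, hvp, hv1, hv2⟩ := hv
    obtain ⟨hl1, hl2⟩ := act1_loc E hi hact
    have hv3 : (0 : ℝ) < u.1 := by exact_mod_cast hvp.pos
    have h1 : (2 : ℝ) ^ (i : ℝ) < (u.1 : ℝ) * u.2 := by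
      rw [← r2n]; exact_mod_cast hl1
    have h2 : (2 : ℝ) ^ (0.615 * (i : ℝ)) ≤ u.2 := by
      by_contra hcon
      push Not at hcon
      have h3 : (u.1 : ℝ) * u.2 ≤ (2 : ℝ) ^ (0.385 * (i : ℝ)) * (2 : ℝ) ^ (0.615 * (i : ℝ)) :=
        mul_le_mul hv2 hcon.le (Nat.cast_nonneg _) (r2pos _).le
      rw [← r2] at h3
      have h4 : (2 : ℝ) ^ (0.385 * (i : ℝ) + 0.615 * (i : ℝ)) = (2 : ℝ) ^ (i : ℝ) := by congr 1; ring
      rw [h4] at h3
      linarith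
    refine ⟨hvp, hq, hv0, ?_, h2, hl1, hl2, hact⟩
    have h5 : (2 : ℝ) ^ (0.385 * (i : ℝ)) < (2 : ℝ) ^ (0.615 * (i : ℝ)) :=
      Real.rpow_lt_rpow_of_exponent_lt one_lt_two (by linarith)
    have h6 : (u.1 : ℝ) < u.2 := by linarith
    exact_mod_cast h6
  · intro u hu
    unfold KEnv.Fam2 at hu
    rw [mem_filter] at hu
    obtain ⟨-, hq, hlp, k, hk, hH⟩ := hu
    unfold H2D at hH
    rw [mem_filter] at hH
    obtain ⟨hc, hsq, hr, hnp⟩ := hH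
    have hact : u.1 * u.2 ∈ E.Act2 i := (mem_Act2 E).2 ⟨k, hk, hc⟩
    obtain ⟨hl1, hl2⟩ := act2_loc E hact
    have hcop : Nat.Coprime u.1 u.2 := Nat.coprime_of_squarefree_mul hsq
    have hu1 : 1 < u.1 := by
      rcases Nat.lt_or_ge 1 u.1 with h | h
      · exact h
      · exfalso
        interval_cases h1 : u.1
        · rw [zero_mul] at hl1; omega
        · rw [one_mul] at hnp; exact hnp hq
    have hq4 : u.1 * u.2 ≤ u.2 ^ 4 := by
      have := le_lp4 hi0 hsq hr hl2 (by rw [hlp]; exact hq.pos)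
      rwa [hlp] at this
    have h1 : (2 : ℝ) ^ (i : ℝ) < (u.1 : ℝ) * u.2 := by
      rw [← r2n]; exact_mod_cast hl1
    have h2 : (u.1 : ℝ) * u.2 ≤ (2 : ℝ) ^ ((i : ℝ) + 1) := by
      calc (u.1 : ℝ) * u.2 ≤ ((2 ^ (i + 1) : ℕ) : ℝ) := by exact_mod_cast hl2
        _ = _ := by rw [r2n]; push_cast; rfl
    have h3 : (u.1 : ℝ) * u.2 ≤ (u.2 : ℝ) ^ (4 : ℕ) := by exact_mod_cast hq4
    have hq0 : (0 : ℝ) < u.2 := by exact_mod_cast hq.pos
    have hu0 : (0 : ℝ) < u.1 := by exact_mod_cast (by omega : 0 < u.1)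
    have h4 : ∀ x : ℝ, ((2 : ℝ) ^ x) ^ (4 : ℕ) = (2 : ℝ) ^ (4 * x) := by
      intro x
      rw [← Real.rpow_natCast, ← Real.rpow_mul two_pos.le]
      congr 1
      push_cast; ring
    refine ⟨hsq.squarefree_of_dvd (dvd_mul_right _ _), hu1, hq, ?_, ?_, ?_, ?_, ?_, hl1, hl2, hact⟩
    · intro h
      have := Nat.Coprime.eq_one_of_dvd hcop.symm h
      exact hq.one_lt.ne' this
    · intro p hp hd
      exact hr p hp (hd.mul_right _)
    · have h5 := card_pf hi0 hsq hr hl2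
      rw [hcop.primeFactors_mul, card_union_of_disjoint hcop.disjoint_primeFactors, hq.primeFactors, card_singleton] at h5
      omega
    · -- m^4 ≤ n^3
      by_contra hcon
      push Not at hcon
      have h6 : ((2 : ℝ) ^ (0.75 * ((i : ℝ) + 1))) ^ (4 : ℕ) < (u.1 : ℝ) ^ (4 : ℕ) := pow_lt_pow_left₀ hcon (r2pos _).le (by norm_num)
      rw [h4] at h6
      have h7 : (u.1 : ℝ) ≤ (u.2 : ℝ) ^ (3 : ℕ) := by
        have : (u.1 : ℝ) * u.2 ≤ (u.2 : ℝ) ^ (3 : ℕ) * u.2 := by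
          calc (u.1 : ℝ) * u.2 ≤ (u.2 : ℝ) ^ (4 : ℕ) := h3
            _ = _ := by ring
        exact le_of_mul_le_mul_right this hq0
      have h8 : (u.1 : ℝ) ^ (4 : ℕ) ≤ ((u.1 : ℝ) * u.2) ^ (3 : ℕ) := by
        calc (u.1 : ℝ) ^ (4 : ℕ) = (u.1 : ℝ) ^ (3 : ℕ) * u.1 := by ring
          _ ≤ (u.1 : ℝ) ^ (3 : ℕ) * (u.2 : ℝ) ^ (3 : ℕ) := by gcongr
          _ = _ := by ring
      have h9 : ((u.1 : ℝ) * u.2) ^ (3 : ℕ) ≤ ((2 : ℝ) ^ ((i : ℝ) + 1)) ^ (3 : ℕ) := pow_le_pow_left₀ (by positivity) h2 3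
      have h10 : ((2 : ℝ) ^ ((i : ℝ) + 1)) ^ (3 : ℕ) = (2 : ℝ) ^ (4 * (0.75 * ((i : ℝ) + 1))) := by
        rw [← Real.rpow_natCast, ← Real.rpow_mul two_pos.le]
        congr 1
        push_cast; ring
      rw [h10] at h9
      linarith
    · by_contra hcon
      push Not at hcon
      have h6 : (u.2 : ℝ) ^ (4 : ℕ) < ((2 : ℝ) ^ (0.25 * (i : ℝ))) ^ (4 : ℕ) := pow_lt_pow_left₀ hcon hq0.le (by norm_num)
      rw [h4] at h6
      have h7 : (2 : ℝ) ^ (4 * (0.25 * (i : ℝ))) = (2 : ℝ) ^ (i : ℝ) := by congr 1; ring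
      rw [h7] at h6
      linarith

end Pool.Agent.Q222.KZ
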