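import Pool.Agent.Q222.KZ.Base

set_option autoImplicit false

/-!
Project KZ (helper18), job PW: the pointwise inequality for divisors.
-/

namespace Pool.Agent.Q222.KZ

open Finset
open scoped Classical
open Pool.Agent.Q18.KZ

theorem QL_pos (L : Finset ℕ) (n : ℕ) : 0 < QL L n := by
  unfold QL
  apply Finset.prod_pos
  intro p hp
  have : (0 : ℝ) < p := by exact_mod_cast (Nat.prime_of_mem_primeFactors hp).pos
  split_ifs <;> positivity

theorem QL_mono (L : Finset ℕ) {l n : ℕ} (hn : n ≠ 0) (h : l ∣ n) : QL L l ≤ QL L n := by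
  unfold QL
  have hl : l ≠ 0 := ne_zero_of_dvd_ne_zero hn h
  have hf : l.factorization ≤ n.factorization := (Nat.factorization_le_iff_dvd hl hn).2 h
  have h1 : ∀ p ∈ n.primeFactors, (1 : ℝ) ≤ p := by
    intro p hp
    exact_mod_cast (Nat.prime_of_mem_primeFactors hp).one_lt.le
  calc ∏ p ∈ l.primeFactors, (if p ∈ L then (p : ℝ) ^ (l.factorization p) else (p : ℝ) ^ (l.factorization p - 1))
      ≤ ∏ p ∈ l.primeFactors, (if p ∈ L then (p : ℝ) ^ (n.factorization p) else (p : ℝ) ^ (n.factorization p - 1)) := by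
        apply Finset.prod_le_prod
        · intro p _
          split_ifs <;> positivity
        · intro p hp
          have hp1 : (1 : ℝ) ≤ p := h1 p (Nat.primeFactors_mono h hn hp)
          have := hf p
          split_ifs
          · exact pow_le_pow_right₀ hp1 this
          · exact pow_le_pow_right₀ hp1 (Nat.sub_le_sub_right this 1)
    _ ≤ _ := by
        apply Finset.prod_le_prod_of_subset_of_one_le (Nat.primeFactors_mono h hn)
        · intro p _
          split_ifs <;> positivity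
        · intro p hp _
          have hp1 := h1 p hp
          split_ifs <;> exact one_le_pow₀ hp1

theorem QL_mul (L : Finset ℕ) {l : ℕ} (hl : l ≠ 0) : QL L l * ∏ p ∈ l.primeFactors \ L, (p : ℝ) = l := by
  unfold QL
  have h1 : ∏ p ∈ l.primeFactors \ L, (p : ℝ) = ∏ p ∈ l.primeFactors, if p ∈ L then (1 : ℝ) else p := by
    rw [Finset.sdiff_eq_filter, Finset.prod_filter]
    exact Finset.prod_congr rfl fun p _ => by split_ifs <;> simp_all
  rw [h1, ← Finset.prod_mul_distrib]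
  have h2 : (l : ℝ) = ∏ p ∈ l.primeFactors, (p : ℝ) ^ (l.factorization p) := by
    conv_lhs => rw [← Nat.prod_factorization_pow_eq_self hl]
    rw [Finsupp.prod, Nat.cast_prod, Nat.support_factorization]
    exact Finset.prod_congr rfl fun p _ => Nat.cast_pow _ _
  conv_rhs => rw [h2]
  apply Finset.prod_congr rfl
  intro p hp
  split_ifs
  · rw [mul_one]
  · have h3 : l.factorization p ≠ 0 := by
      have := Nat.support_factorization l ▸ hp
      exact Finsupp.mem_support_iff.1 this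
    obtain ⟨e, he⟩ := Nat.exists_eq_succ_of_ne_zero h3
    rw [he]
    simp [pow_succ]

theorem rho_prod {j l : ℕ} (hl : ∀ p : ℕ, p.Prime → p ∣ l → 2 ^ (j / 10) ≤ p) (S : Finset ℕ) (hS : S ⊆ l.primeFactors) :
    ∏ p ∈ S, rho j p = (∏ p ∈ S, (p : ℝ)) ^ (-(1 / 2 : ℝ) + d1) := by
  rw [← Real.finsetProd_rpow _ _ (fun p _ => Nat.cast_nonneg p)]
  apply Finset.prod_congr rfl
  intro p hp
  have h1 := Nat.mem_primeFactors.1 (hS hp)
  unfold rho
  rw [if_pos ⟨h1.1, hl p h1.1 h1.2.1⟩]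

theorem t_PW : S_PW := by
  intro j n l L hn hl
  have hn0 : n ≠ 0 := hn.1
  have hl0 : l ≠ 0 := ne_zero_of_dvd_ne_zero hn0 hl
  have hlp : (0 : ℝ) < l := by exact_mod_cast Nat.pos_of_ne_zero hl0
  have hnp : (0 : ℝ) < n := by exact_mod_cast Nat.pos_of_ne_zero hn0
  rw [rho_prod (l := l) (fun p hp hd => hn.2 p hp (hd.trans hl)) _ Finset.sdiff_subset]
  set Q : ℝ := ∏ p ∈ l.primeFactors \ L, (p : ℝ) with hQ
  have hQpos : 0 < Q := Finset.prod_pos fun p hp => by
    exact_mod_cast (Nat.prime_of_mem_primeFactors (Finset.mem_sdiff.1 hp).1).pos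
  have hQL : QL L l * Q = l := QL_mul L hl0
  have hQLpos := QL_pos L l
  have h1 : (((n / l : ℕ) : ℝ))⁻¹ = (n : ℝ)⁻¹ * l := by
    rw [Nat.cast_div hl hlp.ne']
    field_simp
  have h2 : (l : ℝ) ^ (-(1 / 2 : ℝ) - dd) * l * Q ^ (-(1 / 2 : ℝ) + d1) = (l : ℝ) ^ (-(dd - d1)) * (QL L l) ^ (1 / 2 - d1) := by
    have h3 : QL L l = l / Q := by rw [← hQL]; field_simp
    have h3' : (l : ℝ) ^ (1 / 2 - d1) / Q ^ (1 / 2 - d1) = (l : ℝ) ^ (1 / 2 - d1) * Q ^ (-(1 / 2 - d1)) := by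
      rw [Real.rpow_neg hQpos.le]; rfl
    rw [h3, Real.div_rpow hlp.le hQpos.le, h3']
    have h4 : (l : ℝ) ^ (-(1 / 2 : ℝ) - dd) * l = (l : ℝ) ^ (-(dd - d1)) * (l : ℝ) ^ (1 / 2 - d1) := by
      conv_lhs => rw [← Real.rpow_add_one hlp.ne']
      rw [← Real.rpow_add hlp]
      congr 1
      ring
    rw [h4, mul_assoc]
    congr 3
    ring
  calc (l : ℝ) ^ (-(1 / 2 : ℝ) - dd) * (((n / l : ℕ) : ℝ))⁻¹ * Q ^ (-(1 / 2 : ℝ) + d1)
      = (n : ℝ)⁻¹ * ((l : ℝ) ^ (-(1 / 2 : ℝ) - dd) * l * Q ^ (-(1 / 2 : ℝ) + d1)) := by rw [h1]; ring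
    _ = (n : ℝ)⁻¹ * (l : ℝ) ^ (-(dd - d1)) * (QL L l) ^ (1 / 2 - d1) := by rw [h2]; ring
    _ ≤ _ := by
      have h5 : (0 : ℝ) ≤ 1 / 2 - d1 := by unfold d1; norm_num
      have h6 := Real.rpow_le_rpow hQLpos.le (QL_mono L hn0 hl) h5
      exact mul_le_mul_of_nonneg_left h6 (by positivity)

end Pool.Agent.Q222.KZ
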