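import Pool.Agent.Q222.KZ.PW

set_option autoImplicit false

/-!
Project KZ (helper18), job WC: weighted sums over sparse sets.
-/

namespace Pool.Agent.Q222.KZ

open Finset
open scoped Classical
open Pool.Agent.Q18.KZ

theorem tau_le_aux (n : ℕ) : n ≠ 0 → n.divisors.card ≤ 2 ^ n.primeFactorsList.length := by
  induction n using induction_on_primes with
  | zero => intro h; exact absurd rfl h
  | one => intro _; simp
  | prime_mul p a hp ih =>
    intro h
    have ha : a ≠ 0 := fun h0 => h (by rw [h0, mul_zero])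
    have h1 : (p * a).divisors ⊆ a.divisors ∪ (a.divisors).image (fun d => p * d) := by
      intro d hd
      rw [Nat.mem_divisors] at hd
      rw [mem_union, Nat.mem_divisors, mem_image]
      by_cases hpd : p ∣ d
      · right
        obtain ⟨d', rfl⟩ := hpd
        exact ⟨d', Nat.mem_divisors.2 ⟨Nat.dvd_of_mul_dvd_mul_left hp.pos hd.1, ha⟩, rfl⟩
      · left
        have : Nat.Coprime d p := ((Nat.Prime.coprime_iff_not_dvd hp).2 hpd).symm
        exact ⟨this.dvd_of_dvd_mul_left hd.1, ha⟩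
    have h2 : (p * a).primeFactorsList.length = a.primeFactorsList.length + 1 := by
      rw [(Nat.perm_primeFactorsList_mul hp.ne_zero ha).length_eq, List.length_append, Nat.primeFactorsList_prime hp]
      simp [add_comm]
    calc (p * a).divisors.card ≤ (a.divisors ∪ (a.divisors).image (fun d => p * d)).card := card_le_card h1
      _ ≤ a.divisors.card + ((a.divisors).image (fun d => p * d)).card := card_union_le _ _
      _ ≤ a.divisors.card + a.divisors.card := Nat.add_le_add_left card_image_le _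
      _ ≤ 2 ^ (p * a).primeFactorsList.length := by
        rw [h2, pow_succ]
        have := ih ha
        omega

theorem len_le {j n M : ℕ} (hn : Rg j n) (hle : n ≤ 2 ^ M) : j / 10 * n.primeFactorsList.length ≤ M := by
  have h1 : (2 ^ (j / 10)) ^ n.primeFactorsList.length ≤ n.primeFactorsList.prod := by
    apply List.pow_card_le_prod
    intro p hp
    exact hn.2 p (Nat.prime_of_mem_primeFactorsList hp) (Nat.dvd_of_mem_primeFactorsList hp)
  rw [Nat.prod_primeFactorsList hn.1, ← pow_mul] at h1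
  exact (Nat.pow_le_pow_iff_right (by norm_num)).1 (h1.trans hle)

/-- bound for the number of divisors -/
theorem tau_le {j n M : ℕ} (hj : 20 ≤ j) (hn : Rg j n) (hle : n ≤ 2 ^ M) :
    (n.divisors.card : ℝ) ≤ (2 : ℝ) ^ (20 * (M : ℝ) / j) := by
  have h1 := tau_le_aux n hn.1
  have h2 := len_le hn hle
  calc (n.divisors.card : ℝ) ≤ ((2 ^ n.primeFactorsList.length : ℕ) : ℝ) := by exact_mod_cast h1
    _ = (2 : ℝ) ^ (n.primeFactorsList.length : ℝ) := r2n _
    _ ≤ _ := by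
      apply r2mono
      have hj' : (0 : ℝ) < j := by exact_mod_cast (by omega : 0 < j)
      rw [le_div_iff₀ hj']
      have h3 : j ≤ 20 * (j / 10) := by omega
      have h4 : j * n.primeFactorsList.length ≤ 20 * M := by
        calc j * n.primeFactorsList.length ≤ 20 * (j / 10) * n.primeFactorsList.length := Nat.mul_le_mul_right _ h3
          _ = 20 * (j / 10 * n.primeFactorsList.length) := by ring
          _ ≤ 20 * M := Nat.mul_le_mul_left _ h2
      have h5 : (j : ℝ) * n.primeFactorsList.length ≤ 20 * M := by exact_mod_cast h4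
      linarith

theorem t_WC : S_RCL → S_WC := by
  intro hR k
  obtain ⟨J, hJ⟩ := hR (1 / 10 ^ 16) k (by norm_num)
  refine ⟨max J (10 ^ 16), fun j hj i I a b hji hjI hiI ha hab hb hba L hL hLc D hD hDc => ?_⟩
  have hj1 : J ≤ j := (le_max_left _ _).trans hj
  have hj2 : 10 ^ 16 ≤ j := (le_max_right _ _).trans hj
  have hj2' : (10 : ℝ) ^ 16 ≤ j := by exact_mod_cast hj2
  have hI' : (j : ℝ) ≤ I := by exact_mod_cast hjI
  have hi' : (j : ℝ) ≤ i := by exact_mod_cast hji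
  have hd1 : d1 = 1 / 10 ^ 4 - 1 / 10 ^ 16 := rfl
  have hsum := hJ j hj1 I a b (by omega) ha hab (hb.trans (Nat.pow_le_pow_right (by norm_num) (by omega))) hba L hL hLc
  set g : ℕ → ℝ := fun n => (QL L n) ^ (1 / 2 - d1) with hg
  have hg0 : ∀ n, 0 ≤ g n := fun n => Real.rpow_nonneg (QL_pos L n).le _
  have hexp : (0 : ℝ) ≤ 1 / 2 - d1 := by rw [hd1]; norm_num
  -- small values
  have A1 : ∑ u ∈ D.filter (fun u => QL L u.1 ≤ (2 : ℝ) ^ ((i : ℝ) / 1000)), g u.1 ≤ (2 : ℝ) ^ ((1 / 2 - 9 / 10 ^ 14) * (I : ℝ)) / 2 := by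
    have h1 : ∀ u ∈ D.filter (fun u => QL L u.1 ≤ (2 : ℝ) ^ ((i : ℝ) / 1000)), g u.1 ≤ (2 : ℝ) ^ ((i : ℝ) / 2000) := by
      intro u hu
      rw [mem_filter] at hu
      calc g u.1 ≤ ((2 : ℝ) ^ ((i : ℝ) / 1000)) ^ (1 / 2 - d1) := Real.rpow_le_rpow (QL_pos L _).le hu.2 hexp
        _ = (2 : ℝ) ^ ((i : ℝ) / 1000 * (1 / 2 - d1)) := (Real.rpow_mul two_pos.le _ _).symm
        _ ≤ _ := by
          apply r2mono
          have : 0 ≤ d1 := by rw [hd1]; norm_num
          nlinarith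
    calc ∑ u ∈ D.filter (fun u => QL L u.1 ≤ (2 : ℝ) ^ ((i : ℝ) / 1000)), g u.1
        ≤ (D.filter (fun u => QL L u.1 ≤ (2 : ℝ) ^ ((i : ℝ) / 1000))).card • (2 : ℝ) ^ ((i : ℝ) / 2000) := sum_le_card_nsmul _ _ _ h1
      _ = ((D.filter (fun u => QL L u.1 ≤ (2 : ℝ) ^ ((i : ℝ) / 1000))).card : ℝ) * (2 : ℝ) ^ ((i : ℝ) / 2000) := by rw [nsmul_eq_mul]
      _ ≤ (2 : ℝ) ^ ((I : ℝ) / 2 - (i : ℝ) / 500) * (2 : ℝ) ^ ((i : ℝ) / 2000) := by
          apply mul_le_mul_of_nonneg_right _ (r2pos _).le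
          refine le_trans ?_ hDc
          exact_mod_cast card_le_card (filter_subset _ _)
      _ = (2 : ℝ) ^ ((I : ℝ) / 2 - (i : ℝ) / 500 + (i : ℝ) / 2000) := (r2 _ _).symm
      _ ≤ (2 : ℝ) ^ ((1 / 2 - 9 / 10 ^ 14) * (I : ℝ) - 1) := r2mono (by linarith)
      _ = _ := by rw [Real.rpow_sub two_pos, Real.rpow_one]
  -- large values
  have A2 : ∑ u ∈ D.filter (fun u => ¬ QL L u.1 ≤ (2 : ℝ) ^ ((i : ℝ) / 1000)), g u.1 ≤ (2 : ℝ) ^ ((1 / 2 - 9 / 10 ^ 14) * (I : ℝ)) / 2 := by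
    obtain ⟨s, hs⟩ : ∃ s : ℕ → ℝ, s = fun n => (2 : ℝ) ^ (-(d1 * ((i : ℝ) / 1000))) * Real.sqrt (QL L n) := ⟨_, rfl⟩
    have hs0 : ∀ n, 0 ≤ s n := fun n => by rw [hs]; positivity
    have h1 : ∀ u ∈ D.filter (fun u => ¬ QL L u.1 ≤ (2 : ℝ) ^ ((i : ℝ) / 1000)), g u.1 ≤ s u.1 := by
      intro u hu
      rw [mem_filter, not_le] at hu
      have hq := QL_pos L u.1
      have h2 : g u.1 = (QL L u.1) ^ (-d1) * Real.sqrt (QL L u.1) := by
        rw [Real.sqrt_eq_rpow, ← Real.rpow_add hq, hg]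
        simp only
        congr 1
        ring
      rw [h2, hs]
      simp only
      apply mul_le_mul_of_nonneg_right _ (Real.sqrt_nonneg _)
      have h3 : (2 : ℝ) ^ (-(d1 * ((i : ℝ) / 1000))) = ((2 : ℝ) ^ ((i : ℝ) / 1000)) ^ (-d1) := by
        rw [← Real.rpow_mul two_pos.le]; congr 1; ring
      rw [h3]
      exact Real.rpow_le_rpow_of_nonpos (r2pos _) hu.2.le (by rw [hd1]; norm_num)
    have h4 : D.filter (fun u => ¬ QL L u.1 ≤ (2 : ℝ) ^ ((i : ℝ) / 1000)) ⊆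
        ((Ioc a b).filter (Rg j)).biUnion (fun n => n.divisors.image (fun d => (n, d))) := by
      intro u hu
      obtain ⟨h5, h6, h7⟩ := hD u (mem_filter.1 hu).1
      exact mem_biUnion.2 ⟨u.1, mem_filter.2 ⟨h5, h6⟩, mem_image.2 ⟨u.2, Nat.mem_divisors.2 ⟨h7, h6.1⟩, rfl⟩⟩
    have hτ : ∀ n ∈ (Ioc a b).filter (Rg j), (n.divisors.card : ℝ) ≤ (2 : ℝ) ^ (20 * ((I + 1 : ℕ) : ℝ) / j) := by
      intro n hn
      rw [mem_filter, mem_Ioc] at hn
      exact tau_le (by omega) hn.2 (hn.1.2.trans hb)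
    calc ∑ u ∈ D.filter (fun u => ¬ QL L u.1 ≤ (2 : ℝ) ^ ((i : ℝ) / 1000)), g u.1
        ≤ ∑ u ∈ D.filter (fun u => ¬ QL L u.1 ≤ (2 : ℝ) ^ ((i : ℝ) / 1000)), s u.1 := sum_le_sum h1
      _ ≤ ∑ u ∈ ((Ioc a b).filter (Rg j)).biUnion (fun n => n.divisors.image (fun d => (n, d))), s u.1 :=
          sum_le_sum_of_subset_of_nonneg h4 (fun u _ _ => hs0 _)
      _ ≤ ∑ n ∈ (Ioc a b).filter (Rg j), ∑ u ∈ n.divisors.image (fun d => (n, d)), s u.1 :=
          sum_biUnion_le' ((Ioc a b).filter (Rg j)) (fun n => n.divisors.image (fun d => (n, d))) (fun u => s u.1) (fun u => hs0 _)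
      _ = ∑ n ∈ (Ioc a b).filter (Rg j), (n.divisors.card : ℝ) * s n := by
          apply sum_congr rfl
          intro n _
          rw [sum_image (fun d _ d' _ h => (Prod.mk.inj h).2)]
          change ∑ _x ∈ n.divisors, s n = _
          rw [sum_const, nsmul_eq_mul]
      _ ≤ ∑ n ∈ (Ioc a b).filter (Rg j), (2 : ℝ) ^ (20 * ((I + 1 : ℕ) : ℝ) / j) * s n :=
          sum_le_sum fun n hn => mul_le_mul_of_nonneg_right (hτ n hn) (hs0 n)
      _ = (2 : ℝ) ^ (20 * ((I + 1 : ℕ) : ℝ) / j) * (2 : ℝ) ^ (-(d1 * ((i : ℝ) / 1000))) * ∑ n ∈ (Ioc a b).filter (Rg j), Real.sqrt (QL L n) := by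
          rw [mul_sum]
          exact sum_congr rfl fun n _ => by rw [hs, mul_assoc]
      _ ≤ (2 : ℝ) ^ (20 * ((I + 1 : ℕ) : ℝ) / j) * (2 : ℝ) ^ (-(d1 * ((i : ℝ) / 1000))) * (2 : ℝ) ^ ((1 / 2 + 1 / 10 ^ 16) * (I : ℝ)) :=
          mul_le_mul_of_nonneg_left hsum (by positivity)
      _ = (2 : ℝ) ^ (20 * ((I + 1 : ℕ) : ℝ) / j + -(d1 * ((i : ℝ) / 1000)) + (1 / 2 + 1 / 10 ^ 16) * (I : ℝ)) := by rw [r2, r2]
      _ ≤ (2 : ℝ) ^ ((1 / 2 - 9 / 10 ^ 14) * (I : ℝ) - 1) := by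
          apply r2mono
          have h5 : 20 * ((I + 1 : ℕ) : ℝ) / j ≤ 20 * ((I : ℝ) + 1) / 10 ^ 16 := by
            push_cast
            exact div_le_div_of_nonneg_left (by positivity) (by norm_num) hj2'
          have h6 : (I : ℝ) / 10 ^ 6 - 1 ≤ i := by linarith
          rw [hd1]
          have h7 : (1 / 10 ^ 4 - 1 / 10 ^ 16 : ℝ) * (((I : ℝ) / 10 ^ 6 - 1) / 1000) ≤ (1 / 10 ^ 4 - 1 / 10 ^ 16) * ((i : ℝ) / 1000) := by
            apply mul_le_mul_of_nonneg_left _ (by norm_num)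
            linarith
          linarith
      _ = _ := by rw [Real.rpow_sub two_pos, Real.rpow_one]
  rw [← sum_filter_add_sum_filter_not D (fun u => QL L u.1 ≤ (2 : ℝ) ^ ((i : ℝ) / 1000))]
  linarith

end Pool.Agent.Q222.KZ
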