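import Pool.Agent.Q222.KZ.F2

set_option autoImplicit false

/-!
Project KZ (helper18), job F3: divisible pairs with a large cofactor.
-/

namespace Pool.Agent.Q222.KZ

open Finset
open scoped Classical
open Pool.Agent.Q18.KZ
open Pool.Agent.W76.MO (hh nc cell lp Rough hh_pos cell_loc nc_mul)

/-- pairs for one cell -/
theorem pairs_one {δ : ℝ} {i I a b N k : ℕ} (hδ : 0 < δ) (hδ' : δ ≤ 1 / 2) (ha : 2 ^ I ≤ a) (hab : a ≤ b) (hb : b ≤ 2 ^ (I + 1))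
    (hba : (b : ℝ) - a ≤ (2 : ℝ) ^ ((I : ℝ) / 2)) (hk : k < nc δ i) :
    ((((Ioc a b) ×ˢ (range N)).filter (fun u => u.2 ∣ u.1 ∧ u.2 ∈ cell δ i k)).card : ℝ) ≤
      (1 + (2 : ℝ) ^ ((I : ℝ) / 2 - i) + (2 : ℝ) ^ ((I : ℝ) + 1 - 3 / 2 * (i : ℝ))) * (1 + (2 : ℝ) ^ ((i : ℝ) + 1 - (I : ℝ) / 2)) := by
  set A : ℕ := 2 ^ i + k * hh δ i with hA
  set h : ℕ := hh δ i with hh'
  have hAi : 2 ^ i ≤ A := Nat.le_add_right _ _
  have hA0 : 0 < A := lt_of_lt_of_le (by positivity) hAi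
  set T := (((Ioc a b) ×ˢ (range N)).filter (fun u => u.2 ∣ u.1 ∧ u.2 ∈ cell δ i k)) with hT
  -- the multipliers
  set Q : Finset ℕ := T.image (fun u => u.1 / u.2) with hQ
  have hprop : ∀ u ∈ T, a < u.1 ∧ u.1 ≤ b ∧ u.2 * (u.1 / u.2) = u.1 ∧ A < u.2 ∧ u.2 ≤ A + h ∧ u.2 ≤ 2 ^ (i + 1) := by
    intro u hu
    rw [hT, mem_filter, mem_product, mem_Ioc] at hu
    have h1 := mem_cell.1 hu.2.2
    have h2 := cell_loc δ hδ i k _ hk hu.2.2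
    exact ⟨hu.1.1.1, hu.1.1.2, Nat.mul_div_cancel' hu.2.1, h1.1, h1.2, h2.2.1⟩
  have hAr : (2 : ℝ) ^ (i : ℝ) ≤ A := by rw [← r2n]; exact_mod_cast hAi
  have hA0' : (0 : ℝ) < A := by exact_mod_cast hA0
  have hbr : (b : ℝ) ≤ (2 : ℝ) ^ ((I : ℝ) + 1) := by
    calc (b : ℝ) ≤ ((2 ^ (I + 1) : ℕ) : ℝ) := by exact_mod_cast hb
      _ = _ := by rw [r2n]; push_cast; rfl
  have har : (2 : ℝ) ^ (I : ℝ) ≤ a := by rw [← r2n]; exact_mod_cast ha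
  have hhr : (h : ℝ) ≤ (2 : ℝ) ^ ((i : ℝ) / 2) := hh_le_half hδ hδ' i
  have hab' : (0 : ℝ) ≤ (b : ℝ) - a := by
    have : (a : ℝ) ≤ b := by exact_mod_cast hab
    linarith
  have hQc : (Q.card : ℝ) ≤ 1 + (2 : ℝ) ^ ((I : ℝ) / 2 - i) + (2 : ℝ) ^ ((I : ℝ) + 1 - 3 / 2 * (i : ℝ)) := by
    have h1 : Q ⊆ Ioc (a / (A + h)) (b / A) := by
      intro κ hκ
      obtain ⟨u, hu, rfl⟩ := mem_image.1 hκ
      obtain ⟨q1, q2, q3, q4, q5, q6⟩ := hprop u hu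
      rw [mem_Ioc]
      constructor
      · rw [Nat.div_lt_iff_lt_mul (by omega)]
        calc a < u.1 := q1
          _ = u.2 * (u.1 / u.2) := q3.symm
          _ ≤ (A + h) * (u.1 / u.2) := Nat.mul_le_mul_right _ q5
          _ = _ := mul_comm _ _
      · rw [Nat.le_div_iff_mul_le hA0]
        calc u.1 / u.2 * A ≤ u.1 / u.2 * u.2 := Nat.mul_le_mul_left _ q4.le
          _ = u.1 := by rw [mul_comm]; exact q3
          _ ≤ b := q2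
    have h2 := card_le_card h1
    rw [Nat.card_Ioc] at h2
    have h3 : (Q.card : ℝ) ≤ ((b / A : ℕ) : ℝ) - ((a / (A + h) : ℕ) : ℝ) := by
      have h4 : a / (A + h) ≤ b / A := Nat.div_le_div hab (Nat.le_add_right _ _) hA0.ne'
      rw [← Nat.cast_sub h4]; exact_mod_cast h2
    have h5 : ((b / A : ℕ) : ℝ) ≤ (b : ℝ) / A := Nat.cast_div_le
    have hAh : (0 : ℝ) < (A : ℝ) + h := by positivity
    have h6 : (a : ℝ) / ((A : ℝ) + h) - 1 ≤ ((a / (A + h) : ℕ) : ℝ) := by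
      have h7 : a < (A + h) * (a / (A + h) + 1) := Nat.lt_mul_div_succ a (by omega)
      have h8 : (a : ℝ) < ((A : ℝ) + h) * (((a / (A + h) : ℕ) : ℝ) + 1) := by exact_mod_cast h7
      have h9 : (a : ℝ) / ((A : ℝ) + h) < ((a / (A + h) : ℕ) : ℝ) + 1 := by rw [div_lt_iff₀ hAh]; linarith
      linarith
    have h10 : (b : ℝ) / A - (a : ℝ) / ((A : ℝ) + h) ≤ (2 : ℝ) ^ ((I : ℝ) / 2 - i) + (2 : ℝ) ^ ((I : ℝ) + 1 - 3 / 2 * (i : ℝ)) := by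
      have h11 : (b : ℝ) / A - (a : ℝ) / ((A : ℝ) + h) = ((b : ℝ) - a) / (A + h) + b * h / (A * (A + h)) := by
        field_simp
        ring
      rw [h11]
      apply add_le_add
      · rw [Real.rpow_sub two_pos]
        exact div_le_div₀ (r2pos _).le hba (r2pos _) (hAr.trans (by linarith [Nat.cast_nonneg (α := ℝ) h]))
      · have h12 : (2 : ℝ) ^ ((I : ℝ) + 1 - 3 / 2 * (i : ℝ)) = (2 : ℝ) ^ ((I : ℝ) + 1) * (2 : ℝ) ^ ((i : ℝ) / 2) / ((2 : ℝ) ^ (i : ℝ) * (2 : ℝ) ^ (i : ℝ)) := by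
          rw [← r2, ← r2, ← Real.rpow_sub two_pos]
          congr 1
          ring
        rw [h12]
        apply div_le_div₀ (by positivity)
        · exact mul_le_mul hbr hhr (Nat.cast_nonneg _) (r2pos _).le
        · positivity
        · exact mul_le_mul hAr (hAr.trans (by linarith [Nat.cast_nonneg (α := ℝ) h])) (r2pos _).le hA0'.le
    linarith
  have hfib : ∀ κ ∈ Q, ((T.filter (fun u => u.1 / u.2 = κ)).card : ℝ) ≤ 1 + (2 : ℝ) ^ ((i : ℝ) + 1 - (I : ℝ) / 2) := by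
    intro κ hκ
    obtain ⟨u0, hu0, hκ0⟩ := mem_image.1 hκ
    obtain ⟨q1, q2, q3, q4, q5, q6⟩ := hprop u0 hu0
    have hκ1 : (2 : ℝ) ^ ((I : ℝ) - i - 1) ≤ κ := by
      by_contra hcon
      push Not at hcon
      have h1 : (u0.2 : ℝ) * κ ≤ (2 : ℝ) ^ ((i : ℝ) + 1) * (2 : ℝ) ^ ((I : ℝ) - i - 1) := by
        apply mul_le_mul _ hcon.le (Nat.cast_nonneg _) (r2pos _).le
        calc (u0.2 : ℝ) ≤ ((2 ^ (i + 1) : ℕ) : ℝ) := by exact_mod_cast q6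
          _ = _ := by rw [r2n]; push_cast; rfl
      rw [← r2] at h1
      have h2 : (i : ℝ) + 1 + ((I : ℝ) - i - 1) = I := by ring
      rw [h2] at h1
      have h3 : (a : ℝ) < (u0.2 : ℝ) * κ := by
        rw [← hκ0]
        exact_mod_cast (by rw [q3]; exact q1 : a < u0.2 * (u0.1 / u0.2))
      linarith
    have hκ0' : 0 < κ := by
      have : (0 : ℝ) < κ := lt_of_lt_of_le (r2pos _) hκ1
      exact_mod_cast this
    have h1 : (T.filter (fun u => u.1 / u.2 = κ)).card = ((T.filter (fun u => u.1 / u.2 = κ)).image (fun u => u.2)).card := by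
      symm
      apply card_image_of_injOn
      intro u hu u' hu' huu
      rw [mem_coe, mem_filter] at hu hu'
      have e1 := (hprop u hu.1).2.2.1
      have e2 := (hprop u' hu'.1).2.2.1
      have h2 : u.2 = u'.2 := huu
      refine Prod.ext ?_ h2
      rw [← e1, ← e2, hu.2, hu'.2, h2]
    rw [h1]
    refine (card_mul_Ioc hκ0' hab _ ?_).trans ?_
    · intro s hs
      obtain ⟨u, hu, rfl⟩ := mem_image.1 hs
      rw [mem_filter] at hu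
      obtain ⟨q1, q2, q3, -, -, -⟩ := hprop u hu.1
      rw [← hu.2, mul_comm, q3]
      exact ⟨q1, q2⟩
    · have h3 : ((b : ℝ) - a) / κ ≤ (2 : ℝ) ^ ((I : ℝ) / 2) / (2 : ℝ) ^ ((I : ℝ) - i - 1) :=
        div_le_div₀ (r2pos _).le hba (r2pos _) hκ1
      have h4 : (2 : ℝ) ^ ((I : ℝ) / 2) / (2 : ℝ) ^ ((I : ℝ) - i - 1) = (2 : ℝ) ^ ((i : ℝ) + 1 - (I : ℝ) / 2) := by
        rw [← Real.rpow_sub two_pos]; congr 1; ring
      linarith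
  have h1 : T.card = ∑ κ ∈ Q, (T.filter (fun u => u.1 / u.2 = κ)).card :=
    card_eq_sum_card_image (fun u : ℕ × ℕ => u.1 / u.2) T
  calc (T.card : ℝ) = ∑ κ ∈ Q, ((T.filter (fun u => u.1 / u.2 = κ)).card : ℝ) := by exact_mod_cast h1
    _ ≤ ∑ _κ ∈ Q, (1 + (2 : ℝ) ^ ((i : ℝ) + 1 - (I : ℝ) / 2)) := sum_le_sum hfib
    _ = (Q.card : ℝ) * (1 + (2 : ℝ) ^ ((i : ℝ) + 1 - (I : ℝ) / 2)) := by rw [sum_const, nsmul_eq_mul]
    _ ≤ _ := mul_le_mul_of_nonneg_right hQc (by positivity)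

theorem six_exp {A B C D F G T : ℝ} (hA : A + 3 ≤ T) (hB : B + 3 ≤ T) (hC : C + 3 ≤ T) (hD : D + 3 ≤ T) (hF : F + 3 ≤ T) (hG : G + 3 ≤ T) :
    (2 : ℝ) ^ A + (2 : ℝ) ^ B + (2 : ℝ) ^ C + (2 : ℝ) ^ D + (2 : ℝ) ^ F + (2 : ℝ) ^ G ≤ (2 : ℝ) ^ T := by
  have h : ∀ x : ℝ, x + 3 ≤ T → (2 : ℝ) ^ x ≤ (2 : ℝ) ^ T / 8 := by
    intro x hx
    have h1 : (2 : ℝ) ^ x ≤ (2 : ℝ) ^ (T - 3) := r2mono (by linarith)
    have h2 : (2 : ℝ) ^ (T - 3) = (2 : ℝ) ^ T / 8 := by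
      rw [Real.rpow_sub two_pos]; norm_num
    linarith
  have := h A hA
  have := h B hB
  have := h C hC
  have := h D hD
  have := h F hF
  have := h G hG
  have := r2pos T
  linarith

theorem expand6 {P A B C : ℝ} : P * ((1 + A + B) * (1 + C)) = P + P * A + P * B + P * C + P * A * C + P * B * C := by ring

/-- general form -/
theorem f3_gen {δ : ℝ} {i I a b : ℕ} (hδ : 0 < δ) (hδ' : δ ≤ 1 / 2) (hi2 : (5000 : ℝ) ≤ i) (hI2 : (5000 : ℝ) ≤ I) (ha : 2 ^ I ≤ a) (hab : a ≤ b)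
    (hb : b ≤ 2 ^ (I + 1)) (hba : (b : ℝ) - a ≤ (2 : ℝ) ^ ((I : ℝ) / 2)) (K : Finset ℕ) (hK : ∀ k ∈ K, k < nc δ i) {y : ℝ} (hy0 : 0 ≤ y) (hy : y ≤ 0.306)
    (hY : (K.card : ℝ) ≤ (2 : ℝ) ^ (y * (i : ℝ) + 1)) (hz : (1.002 + y) * (i : ℝ) + 5 ≤ I)
    (p : ℕ × ℕ → Prop) [DecidablePred p] (hp : ∀ u, p u → u.2 ∣ u.1 ∧ ∃ k ∈ K, u.2 ∈ cell δ i k) :
    ((((Ioc a b) ×ˢ (range (2 ^ (I + 1) + 1))).filter p).card : ℝ) ≤ (2 : ℝ) ^ ((I : ℝ) / 2 - (i : ℝ) / 500) := by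
  by_cases hc : (i : ℝ) < 0.43 * I
  · have h1 : (((Ioc a b) ×ˢ (range (2 ^ (I + 1) + 1))).filter p) ⊆
        (((Ioc a b) ×ˢ (range (2 ^ (I + 1) + 1))).filter (fun u => u.2 ∣ u.1 ∧ ∃ k ∈ K, u.2 ∈ cell δ i k)) := by
      intro u hu
      rw [mem_filter] at hu ⊢
      exact ⟨hu.1, hp u hu.2⟩
    have h2 := pairs_cells (N := 2 ^ (I + 1) + 1) (w := 1) hδ hδ' one_pos hab K hK hba hY (fun s => ∃ k ∈ K, s ∈ cell δ i k)
      (fun s hs => by simpa using hs)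
    have h3 : ((((Ioc a b) ×ˢ (range (2 ^ (I + 1) + 1))).filter p).card : ℝ) ≤
        ((((Ioc a b) ×ˢ (range (2 ^ (I + 1) + 1))).filter (fun u => u.2 ∣ u.1 ∧ ∃ k ∈ K, u.2 ∈ cell δ i k)).card : ℝ) := by
      exact_mod_cast card_le_card h1
    refine h3.trans (h2.trans ?_)
    rw [Nat.cast_one, div_one, mul_one, ← Real.rpow_sub two_pos, expand4, ← r2, ← r2, ← r2]
    apply four_exp <;> nlinarith
  · push Not at hc
    have h1 : (((Ioc a b) ×ˢ (range (2 ^ (I + 1) + 1))).filter p) ⊆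
        K.biUnion (fun k => ((Ioc a b) ×ˢ (range (2 ^ (I + 1) + 1))).filter (fun u => u.2 ∣ u.1 ∧ u.2 ∈ cell δ i k)) := by
      intro u hu
      rw [mem_filter] at hu
      obtain ⟨hd, k, hk, hm⟩ := hp u hu.2
      exact mem_biUnion.2 ⟨k, hk, mem_filter.2 ⟨hu.1, hd, hm⟩⟩
    have h2 := (card_le_card h1).trans card_biUnion_le
    calc ((((Ioc a b) ×ˢ (range (2 ^ (I + 1) + 1))).filter p).card : ℝ)
        ≤ ∑ k ∈ K, ((((Ioc a b) ×ˢ (range (2 ^ (I + 1) + 1))).filter (fun u => u.2 ∣ u.1 ∧ u.2 ∈ cell δ i k)).card : ℝ) := by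
          exact_mod_cast h2
      _ ≤ ∑ _k ∈ K, (1 + (2 : ℝ) ^ ((I : ℝ) / 2 - i) + (2 : ℝ) ^ ((I : ℝ) + 1 - 3 / 2 * (i : ℝ))) * (1 + (2 : ℝ) ^ ((i : ℝ) + 1 - (I : ℝ) / 2)) :=
          sum_le_sum fun k hk => pairs_one hδ hδ' ha hab hb hba (hK k hk)
      _ = (K.card : ℝ) * ((1 + (2 : ℝ) ^ ((I : ℝ) / 2 - i) + (2 : ℝ) ^ ((I : ℝ) + 1 - 3 / 2 * (i : ℝ))) * (1 + (2 : ℝ) ^ ((i : ℝ) + 1 - (I : ℝ) / 2))) := by
          rw [sum_const, nsmul_eq_mul]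
      _ ≤ (2 : ℝ) ^ (y * (i : ℝ) + 1) * ((1 + (2 : ℝ) ^ ((I : ℝ) / 2 - i) + (2 : ℝ) ^ ((I : ℝ) + 1 - 3 / 2 * (i : ℝ))) * (1 + (2 : ℝ) ^ ((i : ℝ) + 1 - (I : ℝ) / 2))) :=
          mul_le_mul_of_nonneg_right hY (by positivity)
      _ ≤ _ := by
          rw [expand6, ← r2, ← r2, ← r2, ← r2, ← r2]
          apply six_exp <;> nlinarith

theorem t_F3 : S_FF → S_F3 := by
  intro _ E
  refine ⟨max E.i₁ 5000, fun i I a b hi hI ha hab hb hba => ?_⟩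
  have hi1 : E.i₁ ≤ i := (le_max_left _ _).trans hi
  have hi2 : (5000 : ℝ) ≤ i := by exact_mod_cast (le_max_right _ _).trans hi
  have hI2 : (5000 : ℝ) ≤ I := by exact_mod_cast (le_max_right _ _).trans hI
  -- size of the scale, if there is a pair
  have hsize : ∀ (x : ℝ) (u : ℕ × ℕ), u.1 ∈ Ioc a b → u.2 ∣ u.1 → 2 ^ i < u.2 → (2 : ℝ) ^ (x * (i : ℝ)) ≤ ((u.1 / u.2 : ℕ) : ℝ) →
      (1 + x) * (i : ℝ) ≤ I + 1 := by
    intro x u hu hd hl hx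
    by_contra hcon
    push Not at hcon
    rw [mem_Ioc] at hu
    have h1 : (2 : ℝ) ^ (i : ℝ) * (2 : ℝ) ^ (x * (i : ℝ)) ≤ (u.2 : ℝ) * ((u.1 / u.2 : ℕ) : ℝ) := by
      apply mul_le_mul _ hx (r2pos _).le (Nat.cast_nonneg _)
      rw [← r2n]; exact_mod_cast hl.le
    have h2 : (u.2 : ℝ) * ((u.1 / u.2 : ℕ) : ℝ) = u.1 := by exact_mod_cast Nat.mul_div_cancel' hd
    have h3 : (u.1 : ℝ) ≤ (2 : ℝ) ^ ((I : ℝ) + 1) := by
      calc (u.1 : ℝ) ≤ ((2 ^ (I + 1) : ℕ) : ℝ) := by exact_mod_cast hu.2.trans hb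
        _ = _ := by rw [r2n]; push_cast; rfl
    have h4 : (2 : ℝ) ^ ((I : ℝ) + 1) < (2 : ℝ) ^ ((i : ℝ) + x * (i : ℝ)) :=
      Real.rpow_lt_rpow_of_exponent_lt one_lt_two (by linarith)
    rw [← r2, h2] at h1
    linarith
  constructor
  · by_cases hex : ∃ u ∈ ((Ioc a b) ×ˢ (range (2 ^ (I + 1) + 1))), u.2 ∣ u.1 ∧ u.2 ∈ E.Act1 i ∧
      (2 : ℝ) ^ (0.31 * (i : ℝ)) ≤ ((u.1 / u.2 : ℕ) : ℝ)
    · obtain ⟨u, hu, hd, hact, hx⟩ := hex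
      rw [mem_product] at hu
      have hs := hsize 0.31 u hu.1 hd (act1_loc E hi1 hact).1 hx
      exact f3_gen (K := E.B1 i ∪ (E.B1 i).image (E.pi i)) (y := 0.306) E.hδ (E_half E) hi2 hI2 ha hab hb hba (fun k hk => act1_lt E hi1 hk)
        (by norm_num) le_rfl (card_act1 E hi1) (by linarith) _ (fun u hu => ⟨hu.1, (mem_Act1 E).1 hu.2.1⟩)
    · have h0 : (((Ioc a b) ×ˢ (range (2 ^ (I + 1) + 1))).filter (fun u => u.2 ∣ u.1 ∧ u.2 ∈ E.Act1 i ∧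
          (2 : ℝ) ^ (0.31 * (i : ℝ)) ≤ ((u.1 / u.2 : ℕ) : ℝ))) = ∅ := by
        rw [Finset.filter_eq_empty_iff]
        intro u hu h
        exact hex ⟨u, hu, h⟩
      rw [h0, card_empty, Nat.cast_zero]
      exact (r2pos _).le
  · by_cases hex : ∃ u ∈ ((Ioc a b) ×ˢ (range (2 ^ (I + 1) + 1))), u.2 ∣ u.1 ∧ u.2 ∈ E.Act2 i ∧
      (2 : ℝ) ^ (0.12 * (i : ℝ)) ≤ ((u.1 / u.2 : ℕ) : ℝ)
    · obtain ⟨u, hu, hd, hact, hx⟩ := hex
      rw [mem_product] at hu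
      have hs := hsize 0.12 u hu.1 hd (act2_loc E hact).1 hx
      exact f3_gen (K := E.B2 i) (y := 0.1165) E.hδ (E_half E) hi2 hI2 ha hab hb hba (fun k hk => act2_lt E hk)
        (by norm_num) (by norm_num) ((card_act2 E hi1).trans (r2mono (by linarith))) (by linarith) _ (fun u hu => ⟨hu.1, (mem_Act2 E).1 hu.2.1⟩)
    · have h0 : (((Ioc a b) ×ˢ (range (2 ^ (I + 1) + 1))).filter (fun u => u.2 ∣ u.1 ∧ u.2 ∈ E.Act2 i ∧
          (2 : ℝ) ^ (0.12 * (i : ℝ)) ≤ ((u.1 / u.2 : ℕ) : ℝ))) = ∅ := by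
        rw [Finset.filter_eq_empty_iff]
        intro u hu h
        exact hex ⟨u, hu, h⟩
      rw [h0, card_empty, Nat.cast_zero]
      exact (r2pos _).le

end Pool.Agent.Q222.KZ
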